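import Pool.Agent.Lib.MP_eed79e_co.Poly

/-!
Automorphisms and flags of the polytope.
-/

namespace Pool.Agent.Lib.MP_eed79e_co

theorem map_mul (π σ : Equiv.Perm (Fin 4)) (S : Finset (Fin 4)) :
    (S.map σ.toEmbedding).map π.toEmbedding = S.map (π * σ).toEmbedding := by
  rw [Finset.map_map]
  rfl

theorem map_inv_map (π : Equiv.Perm (Fin 4)) (S : Finset (Fin 4)) :
    (S.map π.toEmbedding).map π⁻¹.toEmbedding = S := by
  rw [map_mul, inv_mul_cancel]
  exact Finset.map_refl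

theorem act_mem_NS_iff (π : Equiv.Perm (Fin 4)) {S : Finset (Fin 4)} {x : N} :
    act π x ∈ NS (S.map π.toEmbedding) ↔ x ∈ NS S := by
  refine ⟨fun h => ?_, act_mem_NS π⟩
  have h1 := act_mem_NS π⁻¹ h
  rwa [map_inv_map, act_inv_act] at h1

theorem coset_aut (x : N) (π : Equiv.Perm (Fin 4)) (r : N) (S : Finset (Fin 4)) :
    {y | act π⁻¹ (x⁻¹ * y) ∈ coset r S} = coset (x * act π r) (S.map π.toEmbedding) := by
  ext y
  rw [Set.mem_ofPred_eq, mem_coset, mem_coset, ← act_mem_NS_iff π]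
  have h1 : act π (r⁻¹ * act π⁻¹ (x⁻¹ * y)) = (x * act π r)⁻¹ * y := by
    rw [_root_.map_mul, act_act_inv, map_inv]
    group
  rw [h1]

/-- The automorphism `r S ↦ (x π(r)) π(S)` on the faces. -/
def autFun (x : N) (π : Equiv.Perm (Fin 4)) (F : CF) : CF :=
  ⟨(F.1.1.map π.toEmbedding, {y | act π⁻¹ (x⁻¹ * y) ∈ F.1.2}), by
    obtain ⟨r, S, rfl⟩ := exists_mk' F
    exact ⟨x * act π r, coset_aut x π r S⟩⟩

theorem autFun_mk (x : N) (π : Equiv.Perm (Fin 4)) (r : N) (S : Finset (Fin 4)) :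
    autFun x π (mk r S) = mk (x * act π r) (S.map π.toEmbedding) :=
  Subtype.ext (Prod.ext rfl (coset_aut x π r S))

theorem autFun_inv (x : N) (π : Equiv.Perm (Fin 4)) (F : CF) :
    autFun (act π⁻¹ x⁻¹) π⁻¹ (autFun x π F) = F := by
  obtain ⟨r, S, rfl⟩ := exists_mk' F
  rw [autFun_mk, autFun_mk, map_inv_map, ← _root_.map_mul, inv_mul_cancel_left, act_inv_act]

theorem autFun_inv' (x : N) (π : Equiv.Perm (Fin 4)) (F : CF) :
    autFun x π (autFun (act π⁻¹ x⁻¹) π⁻¹ F) = F := by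
  obtain ⟨r, S, rfl⟩ := exists_mk' F
  have h1 : (S.map π⁻¹.toEmbedding).map π.toEmbedding = S := by
    rw [map_mul, mul_inv_cancel]
    exact Finset.map_refl
  rw [autFun_mk, autFun_mk, h1, ← _root_.map_mul, act_act_inv, mul_inv_cancel_left]

/-- The automorphism `r S ↦ (x π(r)) π(S)`. -/
noncomputable def autCF (x : N) (π : Equiv.Perm (Fin 4)) : CF ≃o CF where
  toFun := autFun x π
  invFun := autFun (act π⁻¹ x⁻¹) π⁻¹
  left_inv := autFun_inv x π
  right_inv := autFun_inv' x π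
  map_rel_iff' {F G} := by
    obtain ⟨r, S, rfl⟩ := exists_mk' F
    obtain ⟨t, T, rfl⟩ := exists_mk' G
    show autFun x π (mk r S) ≤ autFun x π (mk t T) ↔ _
    rw [autFun_mk, autFun_mk, mk_le_mk, mk_le_mk, Finset.map_subset_map]
    have h1 : (x * act π t)⁻¹ * (x * act π r) = act π (t⁻¹ * r) := by
      rw [_root_.map_mul, map_inv]
      group
    rw [h1, act_mem_NS_iff]

/-- The automorphism of the polytope. -/
noncomputable def aut (x : N) (π : Equiv.Perm (Fin 4)) : PP ≃o PP := (autCF x π).withBotCongr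

theorem aut_mk (x : N) (π : Equiv.Perm (Fin 4)) (r : N) (S : Finset (Fin 4)) :
    aut x π (mk r S : PP) = (mk (x * act π r) (S.map π.toEmbedding) : PP) := by
  show ((autFun x π (mk r S) : CF) : PP) = _
  rw [autFun_mk]

theorem aut_bot (x : N) (π : Equiv.Perm (Fin 4)) : aut x π (⊥ : PP) = ⊥ := map_bot _

theorem rk_aut (x : N) (π : Equiv.Perm (Fin 4)) (F : PP) : rk (aut x π F) = rk F := by
  rcases cases_bot_mk F with rfl | ⟨r, S, rfl⟩
  · rw [aut_bot]
  · rw [aut_mk, rk_mk, rk_mk, Finset.card_map]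

/-- The numbers less than `i`. -/
def J (i : Fin 4) : Finset (Fin 4) := Finset.univ.filter fun j => (j : ℕ) < (i : ℕ)

theorem card_J (i : Fin 4) : (J i).card = (i : ℕ) := by
  revert i
  decide

theorem J_ssubset {i j : Fin 4} (h : i < j) : J i ⊂ J j := by
  revert i j
  decide

/-- The standard flags. -/
def fl (r : N) (σ : Equiv.Perm (Fin 4)) : Flag4 rk where
  face i := (mk r ((J i).map σ.toEmbedding) : PP)
  rank i := by rw [rk_mk, Finset.card_map, card_J]
  mono i j h := by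
    rw [WithBot.coe_lt_coe, mk_lt_mk, inv_mul_cancel]
    exact ⟨Finset.map_ssubset_map.2 (J_ssubset h), Subgroup.one_mem _⟩

theorem fl_face (r : N) (σ : Equiv.Perm (Fin 4)) (i : Fin 4) :
    (fl r σ).face i = (mk r ((J i).map σ.toEmbedding) : PP) := rfl

theorem aut_fl (x : N) (π : Equiv.Perm (Fin 4)) (r : N) (σ : Equiv.Perm (Fin 4)) (i : Fin 4) :
    aut x π ((fl r σ).face i) = (fl (x * act π r) (π * σ)).face i := by
  rw [fl_face, fl_face, aut_mk, map_mul]

theorem Flag4.ext' {P : Type} [PartialOrder P] {rk : P → ℤ} {Φ Ψ : Flag4 rk}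
    (h : ∀ i, Φ.face i = Ψ.face i) : Φ = Ψ := by
  cases Φ
  cases Ψ
  have : _ = _ := funext h
  subst this
  rfl

theorem exists_perm {S1 S2 S3 : Finset (Fin 4)} (h1 : S1.card = 1) (h2 : S2.card = 2)
    (h3 : S3.card = 3) (h12 : S1 ⊆ S2) (h23 : S2 ⊆ S3) :
    ∃ σ : Equiv.Perm (Fin 4), (J 1).map σ.toEmbedding = S1 ∧ (J 2).map σ.toEmbedding = S2 ∧
      (J 3).map σ.toEmbedding = S3 := by
  revert S1 S2 S3
  decide

/-- All flags are standard. -/
theorem exists_fl (Φ : Flag4 rk) : ∃ r σ, Φ = fl r σ := by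
  have h0 := Φ.rank 0
  rcases cases_bot_mk (Φ.face 0) with h | ⟨r, S0, hS0⟩
  · rw [h, rk_bot] at h0
    exact absurd h0 (by decide)
  have key : ∀ i, ∃ S : Finset (Fin 4), Φ.face i = (mk r S : PP) := by
    intro i
    have h1 : Φ.face 0 ≤ Φ.face i := Φ.mono.monotone (Fin.zero_le i)
    rcases cases_bot_mk (Φ.face i) with h | ⟨t, T, hT⟩
    · rw [h, hS0] at h1
      exact absurd (le_bot_iff.1 h1) (WithBot.coe_ne_bot)
    · rw [hT, hS0, WithBot.coe_le_coe] at h1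
      obtain ⟨T', hT', _⟩ := mk_le h1
      exact ⟨T', by rw [hT, hT']⟩
  choose S hS using key
  have hcard : ∀ i, (S i).card = (i : ℕ) := by
    intro i
    have h1 := Φ.rank i
    rw [hS, rk_mk] at h1
    exact_mod_cast h1
  have hsub : ∀ i j, i ≤ j → S i ⊆ S j := by
    intro i j hij
    have h1 : Φ.face i ≤ Φ.face j := Φ.mono.monotone hij
    rw [hS, hS, WithBot.coe_le_coe, mk_le_mk] at h1
    exact h1.1
  obtain ⟨σ, e1, e2, e3⟩ := exists_perm (hcard 1) (hcard 2) (hcard 3) (hsub 1 2 (by decide))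
    (hsub 2 3 (by decide))
  refine ⟨r, σ, Flag4.ext' fun i => ?_⟩
  rw [hS, fl_face]
  have h0 : S 0 = ∅ := Finset.card_eq_zero.1 (hcard 0)
  fin_cases i
  · show (mk r (S 0) : PP) = (mk r ((J 0).map σ.toEmbedding) : PP)
    rw [h0]
    rfl
  · show (mk r (S 1) : PP) = (mk r ((J 1).map σ.toEmbedding) : PP)
    rw [e1]
  · show (mk r (S 2) : PP) = (mk r ((J 2).map σ.toEmbedding) : PP)
    rw [e2]
  · show (mk r (S 3) : PP) = (mk r ((J 3).map σ.toEmbedding) : PP)
    rw [e3]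

theorem isCombRegular : IsCombRegular rk := by
  intro Φ Ψ
  obtain ⟨r, σ, rfl⟩ := exists_fl Φ
  obtain ⟨t, τ, rfl⟩ := exists_fl Ψ
  refine ⟨aut (t * (act (τ * σ⁻¹) r)⁻¹) (τ * σ⁻¹), fun i => ?_⟩
  rw [aut_fl, inv_mul_cancel_right, inv_mul_cancel_right]

end Pool.Agent.Lib.MP_eed79e_co
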