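import Pool.Agent.Lib.MP_eed79e_co.Defs

/-!
Isometries that come from automorphisms; composition and inverses of symmetries.
-/

namespace Pool.Agent.Lib.MP_eed79e_co

variable {P : Type} [PartialOrder P] {rk : P → ℤ} {b b' b'' : {v : P // rk v = 0} → H3}

theorem rep1_aut {T : H3 ≃ H3} {α : P ≃o P} (hr : ∀ F, rk (α F) = rk F)
    (h : ∀ v : {v : P // rk v = 0}, T (b v) = b' ⟨α v.1, (hr v.1).trans v.2⟩) (e : P) :
    T '' rep1 rk b e = rep1 rk b' (α e) := by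
  ext y
  constructor
  · rintro ⟨_, ⟨v, hv, rfl⟩, rfl⟩
    exact ⟨⟨α v.1, (hr v.1).trans v.2⟩, α.le_iff_le.2 hv, (h v).symm⟩
  · rintro ⟨w, hw, rfl⟩
    have h1 : rk (α.symm w.1) = 0 := by
      rw [← hr, α.apply_symm_apply]
      exact w.2
    refine ⟨b ⟨α.symm w.1, h1⟩, ⟨⟨α.symm w.1, h1⟩, ?_, rfl⟩, ?_⟩
    · show α.symm w.1 ≤ e
      rw [← α.le_iff_le, α.apply_symm_apply]
      exact hw
    · rw [h]
      congr 1
      exact Subtype.ext (α.apply_symm_apply w.1)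

theorem rep2_aut {T : H3 ≃ H3} {α : P ≃o P} (hr : ∀ F, rk (α F) = rk F)
    (h : ∀ v : {v : P // rk v = 0}, T (b v) = b' ⟨α v.1, (hr v.1).trans v.2⟩) (f : P) :
    (T '' ·) '' rep2 rk b f = rep2 rk b' (α f) := by
  ext y
  constructor
  · rintro ⟨_, ⟨e, he, hef, rfl⟩, rfl⟩
    exact ⟨α e, (hr e).trans he, α.le_iff_le.2 hef, (rep1_aut hr h e).symm⟩
  · rintro ⟨e, he, hef, rfl⟩
    have h1 : rk (α.symm e) = 1 := by
      rw [← hr, α.apply_symm_apply]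
      exact he
    refine ⟨rep1 rk b (α.symm e), ⟨α.symm e, h1, ?_, rfl⟩, ?_⟩
    · rw [← α.le_iff_le, α.apply_symm_apply]
      exact hef
    · show T '' rep1 rk b (α.symm e) = _
      rw [rep1_aut hr h, α.apply_symm_apply]

theorem rep3_aut {T : H3 ≃ H3} {α : P ≃o P} (hr : ∀ F, rk (α F) = rk F)
    (h : ∀ v : {v : P // rk v = 0}, T (b v) = b' ⟨α v.1, (hr v.1).trans v.2⟩) (g : P) :
    ((T '' ·) '' ·) '' rep3 rk b g = rep3 rk b' (α g) := by
  ext y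
  constructor
  · rintro ⟨_, ⟨f, hf, hfg, rfl⟩, rfl⟩
    exact ⟨α f, (hr f).trans hf, α.le_iff_le.2 hfg, (rep2_aut hr h f).symm⟩
  · rintro ⟨f, hf, hfg, rfl⟩
    have h1 : rk (α.symm f) = 2 := by
      rw [← hr, α.apply_symm_apply]
      exact hf
    refine ⟨rep2 rk b (α.symm f), ⟨α.symm f, h1, ?_, rfl⟩, ?_⟩
    · rw [← α.le_iff_le, α.apply_symm_apply]
      exact hfg
    · show (T '' ·) '' rep2 rk b (α.symm f) = _
      rw [rep2_aut hr h, α.apply_symm_apply]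

theorem Maps.of_aut {T : H3 ≃ H3} (hT : IsIsom T) {α : P ≃o P} (hr : ∀ F, rk (α F) = rk F)
    (h : ∀ v : {v : P // rk v = 0}, T (b v) = b' ⟨α v.1, (hr v.1).trans v.2⟩) :
    Maps rk T b b' := by
  have hs : ∀ {k : ℤ} (F : P), rk F = k → rk (α.symm F) = k := fun F hF => by
    rw [← hr, α.apply_symm_apply]
    exact hF
  refine ⟨hT, ?_, ?_, ?_, ?_⟩
  · ext y
    constructor
    · rintro ⟨_, ⟨v, rfl⟩, rfl⟩
      exact ⟨_, (h v).symm⟩
    · rintro ⟨w, rfl⟩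
      refine ⟨_, ⟨⟨α.symm w.1, hs w.1 w.2⟩, rfl⟩, ?_⟩
      rw [h]
      congr 1
      exact Subtype.ext (α.apply_symm_apply w.1)
  · ext y
    constructor
    · rintro ⟨_, ⟨e, he, rfl⟩, rfl⟩
      exact ⟨α e, (hr e).trans he, (rep1_aut hr h e).symm⟩
    · rintro ⟨e, he, rfl⟩
      refine ⟨_, ⟨α.symm e, hs e he, rfl⟩, ?_⟩
      show T '' rep1 rk b (α.symm e) = _
      rw [rep1_aut hr h, α.apply_symm_apply]
  · ext y
    constructor
    · rintro ⟨_, ⟨e, he, rfl⟩, rfl⟩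
      exact ⟨α e, (hr e).trans he, (rep2_aut hr h e).symm⟩
    · rintro ⟨e, he, rfl⟩
      refine ⟨_, ⟨α.symm e, hs e he, rfl⟩, ?_⟩
      show (T '' ·) '' rep2 rk b (α.symm e) = _
      rw [rep2_aut hr h, α.apply_symm_apply]
  · ext y
    constructor
    · rintro ⟨_, ⟨e, he, rfl⟩, rfl⟩
      exact ⟨α e, (hr e).trans he, (rep3_aut hr h e).symm⟩
    · rintro ⟨e, he, rfl⟩
      refine ⟨_, ⟨α.symm e, hs e he, rfl⟩, ?_⟩
      show ((T '' ·) '' ·) '' rep3 rk b (α.symm e) = _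
      rw [rep3_aut hr h, α.apply_symm_apply]

theorem im1_symm (T : H3 ≃ H3) (s : Set H3) : T.symm '' (T '' s) = s := by
  rw [Equiv.symm_image_image]

theorem im2_symm (T : H3 ≃ H3) (s : Set (Set H3)) : (T.symm '' ·) '' ((T '' ·) '' s) = s := by
  rw [Set.image_image]
  simp only [im1_symm]
  exact Set.image_id' s

theorem im3_symm (T : H3 ≃ H3) (s : Set (Set (Set H3))) :
    ((T.symm '' ·) '' ·) '' (((T '' ·) '' ·) '' s) = s := by
  rw [Set.image_image]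
  simp only [im2_symm]
  exact Set.image_id' s

theorem im4_symm (T : H3 ≃ H3) (s : Set (Set (Set (Set H3)))) :
    (((T.symm '' ·) '' ·) '' ·) '' ((((T '' ·) '' ·) '' ·) '' s) = s := by
  rw [Set.image_image]
  simp only [im3_symm]
  exact Set.image_id' s

theorem im1_trans (T U : H3 ≃ H3) (s : Set H3) : (T.trans U) '' s = U '' (T '' s) := by
  rw [Equiv.coe_trans, Set.image_comp]

theorem im2_trans (T U : H3 ≃ H3) (s : Set (Set H3)) :
    ((T.trans U) '' ·) '' s = (U '' ·) '' ((T '' ·) '' s) := by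
  rw [Set.image_image]
  simp only [im1_trans]

theorem im3_trans (T U : H3 ≃ H3) (s : Set (Set (Set H3))) :
    (((T.trans U) '' ·) '' ·) '' s = ((U '' ·) '' ·) '' (((T '' ·) '' ·) '' s) := by
  rw [Set.image_image]
  simp only [im2_trans]

theorem im4_trans (T U : H3 ≃ H3) (s : Set (Set (Set (Set H3)))) :
    ((((T.trans U) '' ·) '' ·) '' ·) '' s =
      (((U '' ·) '' ·) '' ·) '' ((((T '' ·) '' ·) '' ·) '' s) := by
  rw [Set.image_image]
  simp only [im3_trans]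

theorem IsIsom.symm {T : H3 ≃ H3} (h : IsIsom T) : IsIsom T.symm := fun x y => by
  rw [← h, T.apply_symm_apply, T.apply_symm_apply]

theorem IsIsom.trans {T U : H3 ≃ H3} (h : IsIsom T) (h' : IsIsom U) : IsIsom (T.trans U) :=
  fun x y => by
    rw [Equiv.trans_apply, Equiv.trans_apply, h', h]

theorem Maps.symm {T : H3 ≃ H3} (h : Maps rk T b b') : Maps rk T.symm b' b := by
  refine ⟨h.isom.symm, ?_, ?_, ?_, ?_⟩
  · rw [← h.vertices, im1_symm]
  · rw [← h.edges, im2_symm]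
  · rw [← h.twofaces, im3_symm]
  · rw [← h.facets, im4_symm]

theorem Maps.trans {T U : H3 ≃ H3} (h : Maps rk T b b') (h' : Maps rk U b' b'') :
    Maps rk (T.trans U) b b'' := by
  refine ⟨h.isom.trans h'.isom, ?_, ?_, ?_, ?_⟩
  · rw [im1_trans, h.vertices, h'.vertices]
  · rw [im2_trans, h.edges, h'.edges]
  · rw [im3_trans, h.twofaces, h'.twofaces]
  · rw [im4_trans, h.facets, h'.facets]

theorem SameOrbit.symm {Φ Ψ : Flag4 rk} (h : SameOrbit rk b Φ Ψ) : SameOrbit rk b Ψ Φ := by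
  obtain ⟨T, h, h0, h1, h2, h3⟩ := h
  refine ⟨T.symm, h.symm, ?_, ?_, ?_, ?_⟩
  · rw [← h0, T.symm_apply_apply]
  · rw [← h1, im1_symm]
  · rw [← h2, im2_symm]
  · rw [← h3, im3_symm]

theorem SameOrbit.trans {Φ Ψ Θ : Flag4 rk} (h : SameOrbit rk b Φ Ψ) (h' : SameOrbit rk b Ψ Θ) :
    SameOrbit rk b Φ Θ := by
  obtain ⟨T, h, h0, h1, h2, h3⟩ := h
  obtain ⟨U, h', h0', h1', h2', h3'⟩ := h'
  refine ⟨T.trans U, h.trans h', ?_, ?_, ?_, ?_⟩
  · rw [Equiv.trans_apply, h0, h0']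
  · rw [im1_trans, h1, h1']
  · rw [im2_trans, h2, h2']
  · rw [im3_trans, h3, h3']

theorem SameOrbit.of_aut {T : H3 ≃ H3} (hT : IsIsom T) {α : P ≃o P} (hr : ∀ F, rk (α F) = rk F)
    (h : ∀ v : {v : P // rk v = 0}, T (b v) = b ⟨α v.1, (hr v.1).trans v.2⟩) {Φ Ψ : Flag4 rk}
    (hΦ : ∀ i, α (Φ.face i) = Ψ.face i) : SameOrbit rk b Φ Ψ := by
  refine ⟨T, Maps.of_aut hT hr h, ?_, ?_, ?_, ?_⟩
  · rw [h]
    congr 1
    exact Subtype.ext (hΦ 0)
  · rw [rep1_aut hr h, hΦ]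
  · rw [rep2_aut hr h, hΦ]
  · rw [rep3_aut hr h, hΦ]

end Pool.Agent.Lib.MP_eed79e_co
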