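import Mathlib

/-!
Vectors: the Lorentz form in the coordinates adapted to the tetrahedral group.
-/

namespace Pool.Agent.Lib.MP_eed79e_co

/-- The sum of the coordinates. -/
def sm (x : Fin 4 → ℝ) : ℝ := ∑ j, x j

/-- The form. -/
noncomputable def QQ (x y : Fin 4 → ℝ) : ℝ := ∑ j, x j * y j - sm x * sm y / 2

theorem sm_eq (x : Fin 4 → ℝ) : sm x = x 0 + x 1 + x 2 + x 3 := Fin.sum_univ_four x

theorem QQ_eq (x y : Fin 4 → ℝ) : QQ x y = x 0 * y 0 + x 1 * y 1 + x 2 * y 2 + x 3 * y 3 -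
    (x 0 + x 1 + x 2 + x 3) * (y 0 + y 1 + y 2 + y 3) / 2 := by
  unfold QQ
  rw [Fin.sum_univ_four, sm_eq, sm_eq]

theorem QQ_comm (x y : Fin 4 → ℝ) : QQ x y = QQ y x := by
  rw [QQ_eq, QQ_eq]
  ring

/-- The parameters. -/
structure Par where
  s : ℝ
  p : ℝ
  a : ℝ
  b : ℝ
  c : ℝ
  hs : 0 < s
  hp : 0 < p
  hsp : 3 * p ^ 2 = 1 + s ^ 2
  hlt : p < s
  habc : a + b + c = 1
  hsq : a ^ 2 + b ^ 2 + c ^ 2 = 1
  hbc : b ≠ c

variable (M : Par)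

theorem Par.hab : M.a * M.b + M.b * M.c + M.c * M.a = 0 := by
  have h1 := M.habc
  have h2 := M.hsq
  have h3 : (M.a + M.b + M.c) ^ 2 = 1 := by rw [h1]; norm_num
  linarith [h3, h2, show (M.a + M.b + M.c) ^ 2 = M.a ^ 2 + M.b ^ 2 + M.c ^ 2 +
    2 * (M.a * M.b + M.b * M.c + M.c * M.a) by ring]

/-- The reflection normals. -/
noncomputable def nn (i : Fin 4) : Fin 4 → ℝ := fun j => (M.s - M.p) / 2 + if j = i then 2 * M.p else 0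

/-- The height over the reflection plane. -/
noncomputable def ht (i : Fin 4) (x : Fin 4 → ℝ) : ℝ := 2 * M.p * x i - (M.s + M.p) / 2 * sm x

theorem sm_nn (i : Fin 4) : sm (nn M i) = 2 * M.s := by
  rw [sm_eq]
  unfold nn
  fin_cases i <;> simp <;> ring

theorem QQ_nn (i : Fin 4) (x : Fin 4 → ℝ) : QQ x (nn M i) = ht M i x := by
  rw [QQ_eq]
  unfold ht nn
  rw [sm_eq]
  fin_cases i <;> simp <;> ring

theorem ht_nn (i : Fin 4) : ht M i (nn M i) = 1 := by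
  unfold ht
  rw [sm_nn]
  unfold nn
  rw [if_pos rfl]
  have := M.hsp
  linear_combination this

theorem ht_nn' {i j : Fin 4} (h : i ≠ j) : ht M i (nn M j) = -(M.p ^ 2 + M.s ^ 2) := by
  unfold ht
  rw [sm_nn]
  unfold nn
  rw [if_neg h]
  ring

/-- The cyclic order of the other three indices. -/
def nx : Fin 4 → Fin 4 → Fin 4 := ![![0, 2, 3, 1], ![3, 1, 0, 2], ![1, 3, 2, 0], ![2, 0, 1, 3]]

theorem nx_table : nx 0 1 = 2 ∧ nx 0 2 = 3 ∧ nx 0 3 = 1 ∧ nx 1 0 = 3 ∧ nx 1 3 = 2 ∧ nx 1 2 = 0 ∧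
    nx 2 3 = 0 ∧ nx 2 0 = 1 ∧ nx 2 1 = 3 ∧ nx 3 2 = 1 ∧ nx 3 1 = 0 ∧ nx 3 0 = 2 := by
  decide

theorem nx_ne : ∀ i j : Fin 4, j ≠ i → nx i j ≠ i ∧ nx i j ≠ j ∧ nx i (nx i j) ≠ i ∧
    nx i (nx i j) ≠ j ∧ nx i (nx i j) ≠ nx i j ∧ nx i (nx i (nx i j)) = j := by
  decide

theorem nx_perm : ∀ (π : Equiv.Perm (Fin 4)) (i j : Fin 4), j ≠ i →
    nx (π i) (π j) = if Equiv.Perm.sign π = 1 then π (nx i j) else π (nx i (nx i j)) := by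
  decide

/-- The coefficients. -/
noncomputable def cf (ε : ℤˣ) : ℝ := if ε = 1 then M.b else M.c

theorem cf_one : cf M 1 = M.b := if_pos rfl

theorem cf_neg_one : cf M (-1) = M.c := if_neg (by decide)

/-- The rotation around the axis through the vertex `i`. -/
noncomputable def rot (i : Fin 4) (ε : ℤˣ) (x : Fin 4 → ℝ) : Fin 4 → ℝ := fun j =>
  if j = i then x i else M.a * x j + cf M ε * x (nx i j) + cf M (-ε) * x (nx i (nx i j))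

theorem cf_rel (ε : ℤˣ) : M.a + cf M ε + cf M (-ε) = 1 ∧
    M.a ^ 2 + cf M ε ^ 2 + cf M (-ε) ^ 2 = 1 ∧
    M.a * cf M ε + cf M ε * cf M (-ε) + cf M (-ε) * M.a = 0 := by
  have h1 := M.habc
  have h2 := M.hsq
  have h3 := M.hab
  rcases Int.units_eq_one_or ε with rfl | rfl
  · rw [cf_one, cf_neg_one]
    exact ⟨h1, h2, h3⟩
  · rw [neg_neg, cf_one, cf_neg_one]
    refine ⟨?_, ?_, ?_⟩ <;> linarith

theorem rot_self (i : Fin 4) (ε : ℤˣ) (x : Fin 4 → ℝ) : rot M i ε x i = x i := if_pos rfl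

theorem rot_ne {i j : Fin 4} (h : j ≠ i) (ε : ℤˣ) (x : Fin 4 → ℝ) : rot M i ε x j =
    M.a * x j + cf M ε * x (nx i j) + cf M (-ε) * x (nx i (nx i j)) := if_neg h

theorem rot0 (ε : ℤˣ) (x : Fin 4 → ℝ) : rot M 0 ε x 0 = x 0 ∧
    rot M 0 ε x 1 = M.a * x 1 + cf M ε * x 2 + cf M (-ε) * x 3 ∧
    rot M 0 ε x 2 = M.a * x 2 + cf M ε * x 3 + cf M (-ε) * x 1 ∧
    rot M 0 ε x 3 = M.a * x 3 + cf M ε * x 1 + cf M (-ε) * x 2 :=
  ⟨rfl, rfl, rfl, rfl⟩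

theorem rot1 (ε : ℤˣ) (x : Fin 4 → ℝ) : rot M 1 ε x 1 = x 1 ∧
    rot M 1 ε x 0 = M.a * x 0 + cf M ε * x 3 + cf M (-ε) * x 2 ∧
    rot M 1 ε x 3 = M.a * x 3 + cf M ε * x 2 + cf M (-ε) * x 0 ∧
    rot M 1 ε x 2 = M.a * x 2 + cf M ε * x 0 + cf M (-ε) * x 3 :=
  ⟨rfl, rfl, rfl, rfl⟩

theorem rot2 (ε : ℤˣ) (x : Fin 4 → ℝ) : rot M 2 ε x 2 = x 2 ∧
    rot M 2 ε x 3 = M.a * x 3 + cf M ε * x 0 + cf M (-ε) * x 1 ∧
    rot M 2 ε x 0 = M.a * x 0 + cf M ε * x 1 + cf M (-ε) * x 3 ∧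
    rot M 2 ε x 1 = M.a * x 1 + cf M ε * x 3 + cf M (-ε) * x 0 :=
  ⟨rfl, rfl, rfl, rfl⟩

theorem rot3 (ε : ℤˣ) (x : Fin 4 → ℝ) : rot M 3 ε x 3 = x 3 ∧
    rot M 3 ε x 2 = M.a * x 2 + cf M ε * x 1 + cf M (-ε) * x 0 ∧
    rot M 3 ε x 1 = M.a * x 1 + cf M ε * x 0 + cf M (-ε) * x 2 ∧
    rot M 3 ε x 0 = M.a * x 0 + cf M ε * x 2 + cf M (-ε) * x 1 :=
  ⟨rfl, rfl, rfl, rfl⟩

theorem sm_rot (i : Fin 4) (ε : ℤˣ) (x : Fin 4 → ℝ) : sm (rot M i ε x) = sm x := by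
  obtain ⟨h1, _, _⟩ := cf_rel M ε
  rw [sm_eq, sm_eq]
  fin_cases i
  · obtain ⟨e1, e2, e3, e4⟩ := rot0 M ε x
    show rot M 0 ε x 0 + rot M 0 ε x 1 + rot M 0 ε x 2 + rot M 0 ε x 3 = _
    rw [e1, e2, e3, e4]
    linear_combination (x 1 + x 2 + x 3) * h1
  · obtain ⟨e1, e2, e3, e4⟩ := rot1 M ε x
    show rot M 1 ε x 0 + rot M 1 ε x 1 + rot M 1 ε x 2 + rot M 1 ε x 3 = _
    rw [e1, e2, e3, e4]
    linear_combination (x 0 + x 2 + x 3) * h1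
  · obtain ⟨e1, e2, e3, e4⟩ := rot2 M ε x
    show rot M 2 ε x 0 + rot M 2 ε x 1 + rot M 2 ε x 2 + rot M 2 ε x 3 = _
    rw [e1, e2, e3, e4]
    linear_combination (x 1 + x 0 + x 3) * h1
  · obtain ⟨e1, e2, e3, e4⟩ := rot3 M ε x
    show rot M 3 ε x 0 + rot M 3 ε x 1 + rot M 3 ε x 2 + rot M 3 ε x 3 = _
    rw [e1, e2, e3, e4]
    linear_combination (x 1 + x 2 + x 0) * h1

theorem QQ_rot (i : Fin 4) (ε : ℤˣ) (x y : Fin 4 → ℝ) :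
    QQ (rot M i ε x) (rot M i ε y) = QQ x y := by
  obtain ⟨_, h2, h3⟩ := cf_rel M ε
  unfold QQ
  rw [sm_rot, sm_rot, Fin.sum_univ_four, Fin.sum_univ_four]
  fin_cases i
  · obtain ⟨e1, e2, e3, e4⟩ := rot0 M ε x
    obtain ⟨f1, f2, f3, f4⟩ := rot0 M ε y
    show rot M 0 ε x 0 * rot M 0 ε y 0 + rot M 0 ε x 1 * rot M 0 ε y 1 +
      rot M 0 ε x 2 * rot M 0 ε y 2 + rot M 0 ε x 3 * rot M 0 ε y 3 - _ = _
    rw [e1, e2, e3, e4, f1, f2, f3, f4]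
    linear_combination (x 1 * y 1 + x 2 * y 2 + x 3 * y 3) * h2 +
      (x 1 * y 2 + x 2 * y 3 + x 3 * y 1 + x 2 * y 1 + x 3 * y 2 + x 1 * y 3) * h3
  · obtain ⟨e1, e2, e3, e4⟩ := rot1 M ε x
    obtain ⟨f1, f2, f3, f4⟩ := rot1 M ε y
    show rot M 1 ε x 0 * rot M 1 ε y 0 + rot M 1 ε x 1 * rot M 1 ε y 1 +
      rot M 1 ε x 2 * rot M 1 ε y 2 + rot M 1 ε x 3 * rot M 1 ε y 3 - _ = _
    rw [e1, e2, e3, e4, f1, f2, f3, f4]
    linear_combination (x 0 * y 0 + x 2 * y 2 + x 3 * y 3) * h2 +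
      (x 0 * y 2 + x 2 * y 3 + x 3 * y 0 + x 2 * y 0 + x 3 * y 2 + x 0 * y 3) * h3
  · obtain ⟨e1, e2, e3, e4⟩ := rot2 M ε x
    obtain ⟨f1, f2, f3, f4⟩ := rot2 M ε y
    show rot M 2 ε x 0 * rot M 2 ε y 0 + rot M 2 ε x 1 * rot M 2 ε y 1 +
      rot M 2 ε x 2 * rot M 2 ε y 2 + rot M 2 ε x 3 * rot M 2 ε y 3 - _ = _
    rw [e1, e2, e3, e4, f1, f2, f3, f4]
    linear_combination (x 1 * y 1 + x 0 * y 0 + x 3 * y 3) * h2 +
      (x 1 * y 0 + x 0 * y 3 + x 3 * y 1 + x 0 * y 1 + x 3 * y 0 + x 1 * y 3) * h3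
  · obtain ⟨e1, e2, e3, e4⟩ := rot3 M ε x
    obtain ⟨f1, f2, f3, f4⟩ := rot3 M ε y
    show rot M 3 ε x 0 * rot M 3 ε y 0 + rot M 3 ε x 1 * rot M 3 ε y 1 +
      rot M 3 ε x 2 * rot M 3 ε y 2 + rot M 3 ε x 3 * rot M 3 ε y 3 - _ = _
    rw [e1, e2, e3, e4, f1, f2, f3, f4]
    linear_combination (x 1 * y 1 + x 2 * y 2 + x 0 * y 0) * h2 +
      (x 1 * y 2 + x 2 * y 0 + x 0 * y 1 + x 2 * y 1 + x 0 * y 2 + x 1 * y 0) * h3

theorem ht_rot (i : Fin 4) (ε : ℤˣ) (x : Fin 4 → ℝ) : ht M i (rot M i ε x) = ht M i x := by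
  unfold ht
  rw [sm_rot, rot_self]

theorem rot_rot (i : Fin 4) (ε : ℤˣ) (x : Fin 4 → ℝ) : rot M i ε (rot M i (-ε) x) = x := by
  obtain ⟨_, h2, h3⟩ := cf_rel M ε
  ext j
  by_cases hj : j = i
  · subst hj
    rw [rot_self, rot_self]
  · obtain ⟨n1, n2, n3, n4, n5, n6⟩ := nx_ne i j hj
    rw [rot_ne M hj, rot_ne M hj, rot_ne M n1, rot_ne M n3, n6, neg_neg]
    have n7 : nx i (nx i j) ≠ i := n3
    have n8 : nx i (nx i (nx i (nx i j))) = nx i j := by rw [n6]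
    linear_combination x j * h2 + (x (nx i j) + x (nx i (nx i j))) * h3

theorem rot_sub (i : Fin 4) (ε : ℤˣ) (x : Fin 4 → ℝ) (α : ℝ) :
    rot M i ε (fun j => x j - α * nn M i j) = fun j => rot M i ε x j - α * nn M i j := by
  obtain ⟨h1, _, _⟩ := cf_rel M ε
  ext j
  by_cases hj : j = i
  · subst hj
    rw [rot_self, rot_self]
  · obtain ⟨n1, n2, n3, n4, n5, n6⟩ := nx_ne i j hj
    rw [rot_ne M hj, rot_ne M hj]
    unfold nn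
    rw [if_neg hj, if_neg n1, if_neg n3]
    linear_combination (-α * ((M.s - M.p) / 2)) * h1

/-- The rotatory reflections. -/
noncomputable def cv (i : Fin 4) (ε : ℤˣ) (x : Fin 4 → ℝ) : Fin 4 → ℝ := fun j =>
  rot M i ε x j - 2 * ht M i x * nn M i j

theorem ht_sub (i : Fin 4) (x y : Fin 4 → ℝ) (α : ℝ) :
    ht M i (fun j => x j - α * y j) = ht M i x - α * ht M i y := by
  unfold ht
  rw [sm_eq, sm_eq, sm_eq]
  ring

theorem sm_sub (x y : Fin 4 → ℝ) (α : ℝ) : sm (fun j => x j - α * y j) = sm x - α * sm y := by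
  rw [sm_eq, sm_eq, sm_eq]
  ring

theorem QQ_sub (x y z w : Fin 4 → ℝ) (α β : ℝ) :
    QQ (fun j => x j - α * z j) (fun j => y j - β * w j) =
      QQ x y - β * QQ x w - α * QQ z y + α * β * QQ z w := by
  rw [QQ_eq, QQ_eq, QQ_eq, QQ_eq, QQ_eq]
  ring

theorem ht_cv (i : Fin 4) (ε : ℤˣ) (x : Fin 4 → ℝ) : ht M i (cv M i ε x) = -ht M i x := by
  unfold cv
  rw [ht_sub, ht_rot, ht_nn]
  ring

theorem sm_cv (i : Fin 4) (ε : ℤˣ) (x : Fin 4 → ℝ) :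
    sm (cv M i ε x) = sm x - 4 * M.s * ht M i x := by
  unfold cv
  rw [sm_sub, sm_rot, sm_nn]
  ring

theorem QQ_cv (i : Fin 4) (ε : ℤˣ) (x y : Fin 4 → ℝ) :
    QQ (cv M i ε x) (cv M i ε y) = QQ x y := by
  unfold cv
  rw [QQ_sub, QQ_rot, QQ_nn, QQ_comm (nn M i), QQ_nn, QQ_nn, ht_rot, ht_rot, ht_nn]
  ring

theorem cv_cv (i : Fin 4) (ε : ℤˣ) (x : Fin 4 → ℝ) : cv M i ε (cv M i (-ε) x) = x := by
  have h1 : rot M i ε (cv M i (-ε) x) = fun j => x j - 2 * ht M i x * nn M i j := by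
    unfold cv
    rw [rot_sub, rot_rot]
  ext j
  show rot M i ε (cv M i (-ε) x) j - 2 * ht M i (cv M i (-ε) x) * nn M i j = x j
  rw [h1, ht_cv]
  ring

/-- The base vertex. -/
noncomputable def oo : Fin 4 → ℝ := fun _ => 1 / 2

theorem sm_oo : sm oo = 2 := by
  rw [sm_eq]
  unfold oo
  norm_num

theorem QQ_oo (x : Fin 4 → ℝ) : QQ x oo = -(sm x / 2) := by
  rw [QQ_eq, sm_eq]
  unfold oo
  ring

theorem ht_oo (i : Fin 4) : ht M i oo = -M.s := by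
  unfold ht
  rw [sm_oo]
  unfold oo
  ring

theorem rot_oo (i : Fin 4) (ε : ℤˣ) : rot M i ε oo = oo := by
  obtain ⟨h1, _, _⟩ := cf_rel M ε
  ext j
  by_cases hj : j = i
  · subst hj
    rw [rot_self]
  · rw [rot_ne M hj]
    unfold oo
    linear_combination (1 / 2) * h1

theorem cv_oo (i : Fin 4) (ε : ℤˣ) : cv M i ε oo = fun j => oo j + 2 * M.s * nn M i j := by
  ext j
  unfold cv
  rw [rot_oo, ht_oo]
  ring

/-- The permutation of the coordinates. -/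
def pv (π : Equiv.Perm (Fin 4)) (x : Fin 4 → ℝ) : Fin 4 → ℝ := fun j => x (π⁻¹ j)

theorem pv_apply (π : Equiv.Perm (Fin 4)) (x : Fin 4 → ℝ) (j : Fin 4) : pv π x (π j) = x j := by
  show x (π.symm (π j)) = x j
  rw [Equiv.symm_apply_apply]

theorem pv_mul (π σ : Equiv.Perm (Fin 4)) (x : Fin 4 → ℝ) : pv (π * σ) x = pv π (pv σ x) := by
  ext j
  unfold pv
  rw [mul_inv_rev]
  rfl

theorem pv_one (x : Fin 4 → ℝ) : pv 1 x = x := rfl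

theorem sm_pv (π : Equiv.Perm (Fin 4)) (x : Fin 4 → ℝ) : sm (pv π x) = sm x := by
  unfold sm pv
  exact Equiv.sum_comp π⁻¹ x

theorem QQ_pv (π : Equiv.Perm (Fin 4)) (x y : Fin 4 → ℝ) : QQ (pv π x) (pv π y) = QQ x y := by
  unfold QQ
  rw [sm_pv, sm_pv]
  congr 1
  exact Equiv.sum_comp π⁻¹ (fun j => x j * y j)

theorem pv_oo (π : Equiv.Perm (Fin 4)) : pv π oo = oo := rfl

theorem ht_pv (π : Equiv.Perm (Fin 4)) (i : Fin 4) (x : Fin 4 → ℝ) :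
    ht M (π i) (pv π x) = ht M i x := by
  unfold ht
  rw [sm_pv, pv_apply]

theorem nn_pv (π : Equiv.Perm (Fin 4)) (i j : Fin 4) : nn M (π i) (π j) = nn M i j := by
  unfold nn
  congr 1
  exact if_congr (Equiv.apply_eq_iff_eq π) rfl rfl

theorem rot_pv (π : Equiv.Perm (Fin 4)) (i : Fin 4) (ε : ℤˣ) (x : Fin 4 → ℝ) (j : Fin 4) :
    rot M (π i) (ε * Equiv.Perm.sign π) (pv π x) (π j) = rot M i ε x j := by
  by_cases hj : j = i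
  · subst hj
    rw [rot_self, rot_self, pv_apply]
  · have hj' : π j ≠ π i := fun h => hj (π.injective h)
    obtain ⟨n1, n2, n3, n4, n5, n6⟩ := nx_ne i j hj
    rw [rot_ne M hj, rot_ne M hj', nx_perm π i j hj, pv_apply]
    rcases Int.units_eq_one_or (Equiv.Perm.sign π) with h | h
    · rw [if_pos h, nx_perm π i _ n1, if_pos h, pv_apply, pv_apply, h, mul_one]
    · have h' : ¬ Equiv.Perm.sign π = 1 := by rw [h]; decide
      rw [if_neg h', nx_perm π i _ n3, if_neg h', pv_apply, pv_apply, n6, h, mul_neg, mul_one,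
        neg_neg]
      ring

theorem cv_pv (π : Equiv.Perm (Fin 4)) (i : Fin 4) (ε : ℤˣ) (x : Fin 4 → ℝ) :
    pv π (cv M i ε x) = cv M (π i) (ε * Equiv.Perm.sign π) (pv π x) := by
  ext j'
  obtain ⟨j, rfl⟩ := π.surjective j'
  rw [pv_apply]
  unfold cv
  rw [rot_pv, ht_pv, nn_pv]

end Pool.Agent.Lib.MP_eed79e_co
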