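import Pool.Agent.Lib.MP_eed79e_co.Walk

/-!
The family of realizations.
-/

namespace Pool.Agent.Lib.MP_eed79e_co

open Real

theorem sinh_facts {ℓ : ℝ} (h : Real.arcosh 2 < ℓ) : 0 < ℓ ∧ 0 < Real.sinh (ℓ / 2) ∧
    1 < 2 * Real.sinh (ℓ / 2) ^ 2 ∧ Real.cosh ℓ = 1 + 2 * Real.sinh (ℓ / 2) ^ 2 := by
  have h1 : 0 ≤ Real.arcosh 2 := Real.arcosh_nonneg (by norm_num)
  have h2 : 0 < ℓ := lt_of_le_of_lt h1 h
  have h3 : Real.cosh ℓ = 1 + 2 * Real.sinh (ℓ / 2) ^ 2 := by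
    have h4 : ℓ = 2 * (ℓ / 2) := by ring
    have h5 := Real.cosh_two_mul (ℓ / 2)
    rw [← h4, Real.cosh_sq] at h5
    linarith
  have h4 : 2 < Real.cosh ℓ := by
    have h5 : Real.cosh (Real.arcosh 2) < Real.cosh ℓ := by
      rw [Real.cosh_lt_cosh, abs_of_nonneg h1, abs_of_pos h2]
      exact h
    rwa [Real.cosh_arcosh (by norm_num)] at h5
  refine ⟨h2, Real.sinh_pos_iff.2 (by linarith), ?_, h3⟩
  linarith

/-- The parameters. -/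
noncomputable def par (ℓ θ : ℝ) (h : Real.arcosh 2 < ℓ ∧ 0 < θ ∧ θ < π) : Par where
  s := Real.sinh (ℓ / 2)
  p := √((1 + Real.sinh (ℓ / 2) ^ 2) / 3)
  a := (1 + 2 * Real.cos θ) / 3
  b := (1 - Real.cos θ - √3 * Real.sin θ) / 3
  c := (1 - Real.cos θ + √3 * Real.sin θ) / 3
  hs := (sinh_facts h.1).2.1
  hp := Real.sqrt_pos.2 (by positivity)
  hsp := by
    rw [Real.sq_sqrt (by positivity)]
    ring
  hlt := by
    obtain ⟨_, h1, h2, _⟩ := sinh_facts h.1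
    rw [Real.sqrt_lt' h1]
    linarith
  habc := by ring
  hsq := by
    have h3 : √3 ^ 2 = (3 : ℝ) := Real.sq_sqrt (by norm_num)
    have h4 := Real.sin_sq_add_cos_sq θ
    have h5 : ((1 + 2 * Real.cos θ) / 3) ^ 2 + ((1 - Real.cos θ - √3 * Real.sin θ) / 3) ^ 2 +
        ((1 - Real.cos θ + √3 * Real.sin θ) / 3) ^ 2 =
        (3 + 6 * Real.cos θ ^ 2 + 2 * √3 ^ 2 * Real.sin θ ^ 2) / 9 := by ring
    rw [h5, h3]
    linear_combination (2 / 3) * h4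
  hbc := by
    have h1 : 0 < Real.sin θ := Real.sin_pos_of_pos_of_lt_pi h.2.1 h.2.2
    have h2 : 0 < √3 * Real.sin θ := by positivity
    intro h3
    linarith

open Classical in
/-- The realizations. -/
noncomputable def fam (ℓ θ : ℝ) : {v : PP // rk v = 0} → H3 :=
  if h : Real.arcosh 2 < ℓ ∧ 0 < θ ∧ θ < π then bb (par ℓ θ h) else fun _ => eH oH

theorem fam_eq {ℓ θ : ℝ} (h : Real.arcosh 2 < ℓ ∧ 0 < θ ∧ θ < π) : fam ℓ θ = bb (par ℓ θ h) :=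
  dif_pos h

theorem edge_length {M : Par} {ℓ : ℝ} (hℓ : 0 ≤ ℓ) (h : Real.cosh ℓ = 1 + 2 * M.s ^ 2) {e : PP}
    (he : rk e = 1) {v w : {v : PP // rk v = 0}} (hv : v.1 ≤ e) (hw : w.1 ≤ e) (hvw : v ≠ w) :
    hdist (bb M v) (bb M w) = ℓ := by
  have key : ∀ (t : N) (i : Fin 4), lor (pt M t).1 (pt M (t * c i)).1 = -Real.cosh ℓ := by
    intro t i
    rw [lor_pt, QQ_bt, dist1, h]
  have hcomm : ∀ x y : H3, lor x.1 y.1 = lor y.1 x.1 := fun x y => by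
    unfold lor
    ring
  obtain ⟨t, U, rfl, hU⟩ := exists_mk_of_rk (k := 1) he
  obtain ⟨i, rfl⟩ := Finset.card_eq_one.1 hU
  obtain ⟨x, rfl⟩ := ver_bijective.surjective v
  obtain ⟨y, rfl⟩ := ver_bijective.surjective w
  rw [ver_le, coset_singleton] at hv hw
  rw [bb_ver, bb_ver]
  have h1 : lor (pt M x).1 (pt M y).1 = -Real.cosh ℓ := by
    rcases hv with rfl | hv
    · rcases hw with rfl | hw
      · exact absurd rfl hvw
      · rw [Set.mem_singleton_iff] at hw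
        rw [hw, key]
    · rw [Set.mem_singleton_iff] at hv
      rcases hw with rfl | hw
      · rw [hv, hcomm, key]
      · rw [Set.mem_singleton_iff] at hw
        exact absurd (by rw [hv, hw]) hvw
  unfold hdist
  rw [h1, neg_neg, Real.arcosh_cosh hℓ]

theorem main : IsPolytope 4 rk ∧ IsCombRegular rk ∧
    (∀ ℓ θ : ℝ, Real.arcosh 2 < ℓ → 0 < θ → θ < π →
      IsDiscreteSet rk (fam ℓ θ) ∧ IsFaithful rk (fam ℓ θ) ∧ IsTwoOrbit rk (fam ℓ θ) ∧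
      IsChiral rk (fam ℓ θ) ∧
      ∀ e : PP, rk e = 1 → ∀ v w : {v : PP // rk v = 0}, v.1 ≤ e → w.1 ≤ e → v ≠ w →
        hdist (fam ℓ θ v) (fam ℓ θ w) = ℓ) ∧
    ∀ ℓ θ ℓ' θ' : ℝ, Real.arcosh 2 < ℓ → 0 < θ → θ < π → Real.arcosh 2 < ℓ' → 0 < θ' → θ' < π →
      (∃ T : H3 ≃ H3, Maps rk T (fam ℓ θ) (fam ℓ' θ')) → ℓ = ℓ' ∧ θ = θ' := by
  refine ⟨isPolytope, isCombRegular, ?_, ?_⟩
  · intro ℓ θ h1 h2 h3
    rw [fam_eq ⟨h1, h2, h3⟩]
    obtain ⟨k1, k2, k3, k4⟩ := sinh_facts h1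
    exact ⟨isDiscrete _, isFaithful _, isTwoOrbit, isChiral, fun e he v w hv hw hvw =>
      edge_length k1.le k4 he hv hw hvw⟩
  · intro ℓ θ ℓ' θ' h1 h2 h3 h1' h2' h3' hT
    rw [fam_eq ⟨h1, h2, h3⟩, fam_eq ⟨h1', h2', h3'⟩] at hT
    obtain ⟨T, hT⟩ := hT
    obtain ⟨e1, e2⟩ := params_eq hT
    have e1' : Real.sinh (ℓ / 2) = Real.sinh (ℓ' / 2) := e1
    have e2' : (1 + 2 * Real.cos θ) / 3 = (1 + 2 * Real.cos θ') / 3 := e2
    refine ⟨?_, ?_⟩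
    · have := Real.sinh_injective e1'
      linarith
    · exact Real.injOn_cos ⟨h2.le, h3.le⟩ ⟨h2'.le, h3'.le⟩ (by linarith)

end Pool.Agent.Lib.MP_eed79e_co
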