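import Pool.Agent.Lib.MP_eed79e_co.Hyp
import Pool.Agent.Lib.MP_eed79e_co.Grp

/-!
The twisted action of the free product on hyperbolic space, and the vertices.
-/

namespace Pool.Agent.Lib.MP_eed79e_co

variable (M : Par)

/-- The action of a generator. -/
noncomputable def gen (i : Fin 4) : Equiv.Perm (ℤˣ × Hs) where
  toFun y := (-y.1, cH M i (-y.1) y.2)
  invFun y := (-y.1, cH M i (-y.1) y.2)
  left_inv y := by
    obtain ⟨ε, x⟩ := y
    show (- -ε, cH M i (- -ε) (cH M i (-ε) x)) = (ε, x)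
    rw [neg_neg, cH_cH]
  right_inv y := by
    obtain ⟨ε, x⟩ := y
    show (- -ε, cH M i (- -ε) (cH M i (-ε) x)) = (ε, x)
    rw [neg_neg, cH_cH]

theorem gen_apply (i : Fin 4) (ε : ℤˣ) (x : Hs) : gen M i (ε, x) = (-ε, cH M i (-ε) x) := rfl

theorem gen_mul_self (i : Fin 4) : gen M i * gen M i = 1 := by
  ext1 y
  obtain ⟨ε, x⟩ := y
  rw [Equiv.Perm.mul_apply, gen_apply, gen_apply, neg_neg, cH_cH]
  rfl

/-- The action. -/
noncomputable def rho : N →* Equiv.Perm (ℤˣ × Hs) := lift (gen M) (gen_mul_self M)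

theorem rho_c (i : Fin 4) : rho M (c i) = gen M i := lift_c _ _ i

theorem rho_fst (r : N) (ε : ℤˣ) (x : Hs) : (rho M r (ε, x)).1 = ε * sg r := by
  refine ind (p := fun r => ∀ (ε : ℤˣ) (x : Hs), (rho M r (ε, x)).1 = ε * sg r) r ?_ ?_ ε x
  · intro ε x
    rw [map_one, map_one, mul_one]
    rfl
  · intro i r ih ε x
    rw [map_mul, map_mul, Equiv.Perm.mul_apply, rho_c, sg_c]
    show -(rho M r (ε, x)).1 = _
    rw [ih]
    rw [neg_one_mul, mul_neg]

/-- The isometries `g ε r`. -/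
noncomputable def g (ε : ℤˣ) (r : N) (x : Hs) : Hs := (rho M r (ε * sg r, x)).2

theorem sg_sg (r : N) : sg r * sg r = 1 := Int.units_mul_self _

theorem rho_eq (ε : ℤˣ) (r : N) (x : Hs) : rho M r (ε * sg r, x) = (ε, g M ε r x) := by
  refine Prod.ext ?_ rfl
  rw [rho_fst, mul_assoc, sg_sg, mul_one]

theorem g_one (ε : ℤˣ) (x : Hs) : g M ε 1 x = x := by
  unfold g
  rw [map_one, map_one]
  rfl

theorem g_mul (ε : ℤˣ) (r t : N) (x : Hs) : g M ε (r * t) x = g M ε r (g M (ε * sg r) t x) := by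
  unfold g
  rw [map_mul, map_mul, Equiv.Perm.mul_apply, ← mul_assoc, rho_eq M (ε * sg r) t x]

theorem g_c (ε : ℤˣ) (i : Fin 4) (x : Hs) : g M ε (c i) x = cH M i ε x := by
  unfold g
  rw [rho_c, sg_c, mul_neg, mul_one, gen_apply, neg_neg]

theorem g_c_mul (ε : ℤˣ) (i : Fin 4) (r : N) (x : Hs) :
    g M ε (c i * r) x = cH M i ε (g M (-ε) r x) := by
  rw [g_mul, g_c, sg_c, mul_neg, mul_one]

theorem g_inv (ε : ℤˣ) (r : N) (x : Hs) : g M ε r (g M (ε * sg r) r⁻¹ x) = x := by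
  rw [← g_mul, mul_inv_cancel, g_one]

theorem sg_inv (r : N) : sg r⁻¹ = sg r := by
  rw [map_inv]
  exact Int.units_inv_eq_self _

theorem g_inv' (ε : ℤˣ) (r : N) (x : Hs) : g M (ε * sg r) r⁻¹ (g M ε r x) = x := by
  have h := g_inv M (ε * sg r) r⁻¹ x
  rw [inv_inv, sg_inv, mul_assoc, sg_sg, mul_one] at h
  exact h

theorem g_injective (ε : ℤˣ) (r : N) : Function.Injective (g M ε r) := fun x y h => by
  rw [← g_inv' M ε r x, h, g_inv']

theorem QQ_g (ε : ℤˣ) (r : N) (x y : Hs) : QQ (g M ε r x).1 (g M ε r y).1 = QQ x.1 y.1 := by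
  refine ind (p := fun r => ∀ ε : ℤˣ, QQ (g M ε r x).1 (g M ε r y).1 = QQ x.1 y.1) r ?_ ?_ ε
  · intro ε
    rw [g_one, g_one]
  · intro i r ih ε
    rw [g_c_mul, g_c_mul]
    show QQ (cv M i ε (g M (-ε) r x).1) (cv M i ε (g M (-ε) r y).1) = _
    rw [QQ_cv, ih]

theorem g_pH (π : Equiv.Perm (Fin 4)) (ε : ℤˣ) (r : N) (x : Hs) :
    pH π (g M ε r x) = g M (ε * Equiv.Perm.sign π) (act π r) (pH π x) := by
  refine ind (p := fun r => ∀ ε : ℤˣ, pH π (g M ε r x) =
    g M (ε * Equiv.Perm.sign π) (act π r) (pH π x)) r ?_ ?_ ε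
  · intro ε
    rw [g_one, map_one, g_one]
  · intro i r ih ε
    rw [g_c_mul, map_mul, act_c, g_c_mul, cH_pH, ih, neg_mul]

/-- The vertices. -/
noncomputable def bt (r : N) : Hs := g M 1 r oH

theorem bt_one : bt M 1 = oH := g_one M 1 oH

theorem bt_mul (r t : N) : bt M (r * t) = g M 1 r (g M (sg r) t oH) := by
  unfold bt
  rw [g_mul, one_mul]

/-- The symmetries. -/
theorem sym_bt {x : N} {π : Equiv.Perm (Fin 4)} (h : sg x = Equiv.Perm.sign π) (r : N) :
    g M 1 x (pH π (bt M r)) = bt M (x * act π r) := by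
  rw [bt_mul, bt, g_pH, pH_oH, one_mul, h]

/-- Reduced words. -/
theorem pp (l : List (Fin 4)) (hl : l.IsChain (· ≠ ·)) (ε : ℤˣ) (i : Fin 4) (t : List (Fin 4))
    (h : l = i :: t) : 0 < ht M i (g M ε (l.map c).prod oH).1 ∧
      2 + 8 * M.s * (M.s - M.p) * (l.length : ℝ) ≤ sm (g M ε (l.map c).prod oH).1 := by
  subst h
  have h5 := M.hlt
  have h6 := M.hp
  have h7 := M.hs
  induction t generalizing i ε with
  | nil =>
    rw [List.map_cons, List.map_nil, List.prod_cons, List.prod_nil, mul_one, g_c]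
    show 0 < ht M i (cv M i ε oo) ∧ _ ≤ sm (cv M i ε oo)
    rw [ht_cv, sm_cv, ht_oo, sm_oo, neg_neg]
    refine ⟨h7, ?_⟩
    rw [List.length_cons, List.length_nil]
    have h8 := M.hsp
    have h9 : M.s ≤ 2 * M.p := by nlinarith
    push_cast
    nlinarith
  | cons j t ih =>
    have h1 := List.isChain_cons_cons.1 hl
    obtain ⟨h2, h3⟩ := ih (-ε) j h1.2
    rw [List.map_cons, List.prod_cons, g_c_mul]
    set z := g M (-ε) ((j :: t).map c).prod oH with hz
    show 0 < ht M i (cv M i ε z.1) ∧ _ ≤ sm (cv M i ε z.1)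
    rw [ht_cv, sm_cv]
    have h4 := ht_add M z h1.1
    have h8 : ht M i z.1 < -(2 * (M.s - M.p)) := by linarith
    refine ⟨by linarith, ?_⟩
    rw [List.length_cons]
    push_cast at h3 ⊢
    nlinarith

theorem length_le (l : List (Fin 4)) (hl : l.IsChain (· ≠ ·)) (ε : ℤˣ) :
    2 + 8 * M.s * (M.s - M.p) * (l.length : ℝ) ≤ sm (g M ε (l.map c).prod oH).1 := by
  cases l with
  | nil =>
    rw [List.map_nil, List.prod_nil, g_one]
    show _ ≤ sm oo
    rw [sm_oo, List.length_nil]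
    simp
  | cons i t => exact (pp M _ hl ε i t rfl).2

theorem g_oH_ne (ε : ℤˣ) {r : N} (h : r ≠ 1) : g M ε r oH ≠ oH := by
  obtain ⟨l, hl, rfl⟩ := exists_reduced r
  intro h1
  have h2 := length_le M l hl ε
  rw [h1] at h2
  have h3 : sm oH.1 = 2 := sm_oo
  rw [h3] at h2
  have h5 := M.hlt
  have h7 := M.hs
  cases l with
  | nil => exact h (by simp)
  | cons i t =>
    rw [List.length_cons] at h2
    push_cast at h2
    have h8 : 0 < 8 * M.s * (M.s - M.p) * ((t.length : ℝ) + 1) := by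
      have : (0 : ℝ) ≤ (t.length : ℝ) := Nat.cast_nonneg _
      have h9 : 0 < M.s - M.p := by linarith
      positivity
    linarith

theorem bt_injective : Function.Injective (bt M) := by
  intro r t h
  by_contra hne
  have h1 : t = r * (r⁻¹ * t) := by group
  rw [h1, bt_mul, bt] at h
  have h2 := g_injective M 1 r h
  exact g_oH_ne M (sg r) (fun h3 => hne (inv_mul_eq_one.1 h3)) h2.symm

/-- Finitely many vertices in every ball. -/
theorem finite_ball (x : Hs) (R : ℝ) : {y | y ∈ Set.range (bt M) ∧ -(QQ x.1 y.1) ≤ R}.Finite := by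
  have h5 := M.hlt
  have h7 := M.hs
  have h8 : 0 < 8 * M.s * (M.s - M.p) := by
    have h9 : 0 < M.s - M.p := by linarith
    positivity
  obtain ⟨n, hn⟩ := exists_nat_ge ((2 * sm x.1 * R) / (8 * M.s * (M.s - M.p)))
  have hfin : {l : List (Fin 4) | l.length ≤ n}.Finite := List.finite_length_le (Fin 4) n
  refine (hfin.image fun l => bt M (l.map c).prod).subset ?_
  rintro y ⟨⟨r, rfl⟩, hr⟩
  obtain ⟨l, hl, rfl⟩ := exists_reduced r
  refine ⟨l, ?_, rfl⟩
  have h1 := length_le M l hl 1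
  have h2 := sm_le x (bt M (l.map c).prod)
  have h3 : sm (bt M (l.map c).prod).1 ≤ 2 * sm x.1 * R := by
    have h4 : 0 ≤ 2 * sm x.1 := by have := two_le_sm x; linarith
    exact h2.trans (mul_le_mul_of_nonneg_left hr h4)
  have h4 : 8 * M.s * (M.s - M.p) * (l.length : ℝ) ≤ 2 * sm x.1 * R := by
    have h6 : sm (g M 1 (l.map c).prod oH).1 = sm (bt M (l.map c).prod).1 := rfl
    linarith
  have h6 : (l.length : ℝ) ≤ n := by
    refine le_trans ?_ hn
    rw [le_div_iff₀ h8]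
    linarith
  exact_mod_cast h6

end Pool.Agent.Lib.MP_eed79e_co
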