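import Pool.Agent.Lib.MP_eed79e_co.Flags
import Pool.Agent.Lib.MP_eed79e_co.Rho
import Pool.Agent.Lib.MP_eed79e_co.Gen

/-!
The realization: faces, faithfulness, discreteness, symmetries.
-/

namespace Pool.Agent.Lib.MP_eed79e_co

theorem rk_ver (r : N) : rk (mk r ∅ : PP) = 0 := by
  rw [rk_mk, Finset.card_empty]
  rfl

/-- The vertices. -/
def ver (r : N) : {v : PP // rk v = 0} := ⟨(mk r ∅ : PP), rk_ver r⟩

theorem ver_bijective : Function.Bijective ver := by
  constructor
  · intro r t h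
    have h1 : (mk r ∅ : PP) = (mk t ∅ : PP) := congrArg Subtype.val h
    rw [WithBot.coe_inj, mk_eq_mk, NS_empty, Subgroup.mem_bot] at h1
    exact (inv_mul_eq_one.1 h1.2).symm
  · rintro ⟨v, hv⟩
    rcases cases_bot_mk v with rfl | ⟨r, S, rfl⟩
    · rw [rk_bot] at hv
      exact absurd hv (by decide)
    · rw [rk_mk] at hv
      have h1 : S = ∅ := by
        rw [← Finset.card_eq_zero]
        exact_mod_cast hv
      subst h1
      exact ⟨r, rfl⟩

/-- The vertices correspond to the elements of `N`. -/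
noncomputable def verE : N ≃ {v : PP // rk v = 0} := Equiv.ofBijective ver ver_bijective

theorem verE_apply (r : N) : verE r = ver r := rfl

theorem ver_le {t r : N} {S : Finset (Fin 4)} : (ver t).1 ≤ (mk r S : PP) ↔ t ∈ coset r S := by
  show (mk t ∅ : PP) ≤ (mk r S : PP) ↔ _
  rw [WithBot.coe_le_coe, mk_le_mk, mem_coset]
  exact and_iff_right (Finset.empty_subset S)

variable (M : Par)

/-- The points of the realization. -/
noncomputable def pt (r : N) : H3 := eH (bt M r)

theorem pt_injective : Function.Injective (pt M) := eH.injective.comp (bt_injective M)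

/-- The realization. -/
noncomputable def bb (v : {v : PP // rk v = 0}) : H3 := pt M (verE.symm v)

theorem bb_ver (r : N) : bb M (ver r) = pt M r := by
  unfold bb
  rw [← verE_apply, Equiv.symm_apply_apply]

theorem range_bb : Set.range (bb M) = Set.range (pt M) := by
  unfold bb
  exact verE.symm.surjective.range_comp (pt M)

theorem bb_injective : Function.Injective (bb M) := (pt_injective M).comp verE.symm.injective

theorem rep1_mk (r : N) (S : Finset (Fin 4)) :
    rep1 rk (bb M) (mk r S : PP) = pt M '' coset r S := by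
  ext y
  constructor
  · rintro ⟨v, hv, rfl⟩
    obtain ⟨t, rfl⟩ := ver_bijective.surjective v
    exact ⟨t, ver_le.1 hv, (bb_ver M t).symm⟩
  · rintro ⟨t, ht, rfl⟩
    exact ⟨ver t, ver_le.2 ht, bb_ver M t⟩

/-- The edge from `t` to `t * c i`. -/
def edge (t : N) (i : Fin 4) : Set H3 := {pt M t, pt M (t * c i)}

theorem rep1_edge (t : N) (i : Fin 4) : rep1 rk (bb M) (mk t {i} : PP) = edge M t i := by
  rw [rep1_mk, coset_singleton, Set.image_pair]
  rfl

/-- The edges of a face. -/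
def ES (r : N) (S : Finset (Fin 4)) : Set (Set H3) :=
  {s | ∃ t ∈ coset r S, ∃ i ∈ S, edge M t i = s}

theorem exists_mk_of_le {F : PP} {k : ℕ} (hF : rk F = k) {r : N} {S : Finset (Fin 4)}
    (h : F ≤ (mk r S : PP)) : ∃ t U, F = (mk t U : PP) ∧ U.card = k ∧ t ∈ coset r S ∧ U ⊆ S := by
  rcases cases_bot_mk F with rfl | ⟨t, U, rfl⟩
  · rw [rk_bot] at hF
    have : (0 : ℤ) ≤ (k : ℤ) := Int.natCast_nonneg k
    omega
  · rw [rk_mk] at hF
    rw [WithBot.coe_le_coe, mk_le_mk] at h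
    exact ⟨t, U, rfl, by exact_mod_cast hF, h.2, h.1⟩

theorem exists_mk_of_rk {F : PP} {k : ℕ} (hF : rk F = k) : ∃ t U, F = (mk t U : PP) ∧ U.card = k := by
  rcases cases_bot_mk F with rfl | ⟨t, U, rfl⟩
  · rw [rk_bot] at hF
    have : (0 : ℤ) ≤ (k : ℤ) := Int.natCast_nonneg k
    omega
  · rw [rk_mk] at hF
    exact ⟨t, U, rfl, by exact_mod_cast hF⟩

theorem rep2_mk (r : N) (S : Finset (Fin 4)) : rep2 rk (bb M) (mk r S : PP) = ES M r S := by
  ext y
  constructor
  · rintro ⟨e, he, hef, rfl⟩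
    obtain ⟨t, U, rfl, hU, ht, hUS⟩ := exists_mk_of_le (k := 1) he hef
    obtain ⟨i, rfl⟩ := Finset.card_eq_one.1 hU
    exact ⟨t, ht, i, hUS (Finset.mem_singleton_self i), (rep1_edge M t i).symm⟩
  · rintro ⟨t, ht, i, hi, rfl⟩
    refine ⟨(mk t {i} : PP), ?_, ?_, rep1_edge M t i⟩
    · rw [rk_mk, Finset.card_singleton]
      rfl
    · rw [WithBot.coe_le_coe, mk_le_mk]
      exact ⟨Finset.singleton_subset_iff.2 hi, ht⟩

theorem sUnion_rep3 (r : N) {S : Finset (Fin 4)} (hS : 2 ≤ S.card) :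
    ⋃₀ rep3 rk (bb M) (mk r S : PP) = ES M r S := by
  ext y
  constructor
  · rintro ⟨_, ⟨f, hf, hfg, rfl⟩, hy⟩
    obtain ⟨t, U, rfl, hU, ht, hUS⟩ := exists_mk_of_le (k := 2) hf hfg
    rw [rep2_mk] at hy
    obtain ⟨t', ht', i, hi, rfl⟩ := hy
    refine ⟨t', ?_, i, hUS hi, rfl⟩
    exact coset_subset hUS ht ht'
  · rintro ⟨t, ht, i, hi, rfl⟩
    obtain ⟨j, hj, hji⟩ : ∃ j ∈ S, j ≠ i := by
      by_contra h
      push Not at h
      have h1 : S ⊆ {i} := fun j hj => Finset.mem_singleton.2 (h j hj)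
      have h2 := Finset.card_le_card h1
      rw [Finset.card_singleton] at h2
      omega
    refine ⟨_, ⟨(mk t {i, j} : PP), ?_, ?_, rfl⟩, ?_⟩
    · rw [rk_mk, Finset.card_pair hji.symm]
      rfl
    · rw [WithBot.coe_le_coe, mk_le_mk]
      refine ⟨?_, ht⟩
      intro k hk
      rw [Finset.mem_insert, Finset.mem_singleton] at hk
      rcases hk with rfl | rfl
      · exact hi
      · exact hj
    · rw [rep2_mk]
      exact ⟨t, self_mem_coset t _, i, Finset.mem_insert_self _ _, rfl⟩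

theorem edge_mem_ES {t r : N} {S : Finset (Fin 4)} {i : Fin 4} (ht : t ∈ coset r S) (hi : i ∈ S) :
    edge M t i ∈ ES M r S := ⟨t, ht, i, hi, rfl⟩

/-- The vertices of a face. -/
theorem sUnion_ES (r : N) {S : Finset (Fin 4)} (hS : S.Nonempty) :
    ⋃₀ ES M r S = pt M '' coset r S := by
  ext y
  constructor
  · rintro ⟨_, ⟨t, ht, i, hi, rfl⟩, hy⟩
    rcases hy with rfl | hy
    · exact ⟨t, ht, rfl⟩
    · rw [Set.mem_singleton_iff] at hy
      subst hy
      refine ⟨t * c i, ?_, rfl⟩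
      rw [mem_coset] at ht ⊢
      rw [← mul_assoc]
      exact Subgroup.mul_mem _ ht (c_mem hi)
  · rintro ⟨t, ht, rfl⟩
    obtain ⟨i, hi⟩ := hS
    exact ⟨_, edge_mem_ES M ht hi, Set.mem_insert _ _⟩

theorem mk_eq_of_coset {r t : N} {S U : Finset (Fin 4)} (h : coset r S = coset t U) :
    (mk r S : PP) = (mk t U : PP) := by
  rw [WithBot.coe_inj, mk_eq_mk]
  refine ⟨Finset.Subset.antisymm (subset_of_coset_subset h.le) (subset_of_coset_subset h.ge), ?_⟩
  have h1 : r ∈ coset t U := h ▸ self_mem_coset r S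
  exact h1

theorem isFaithful : IsFaithful rk (bb M) := by
  refine ⟨bb_injective M, ?_, ?_, ?_⟩
  · intro e e' he he' h
    obtain ⟨t, U, rfl, hU⟩ := exists_mk_of_rk (k := 1) he
    obtain ⟨t', U', rfl, hU'⟩ := exists_mk_of_rk (k := 1) he'
    rw [rep1_mk, rep1_mk] at h
    exact mk_eq_of_coset ((pt_injective M).image_injective h)
  · intro e e' he he' h
    obtain ⟨t, U, rfl, hU⟩ := exists_mk_of_rk (k := 2) he
    obtain ⟨t', U', rfl, hU'⟩ := exists_mk_of_rk (k := 2) he'
    rw [rep2_mk, rep2_mk] at h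
    have h1 := congrArg Set.sUnion h
    rw [sUnion_ES M t (Finset.card_pos.1 (by omega)),
      sUnion_ES M t' (Finset.card_pos.1 (by omega))] at h1
    exact mk_eq_of_coset ((pt_injective M).image_injective h1)
  · intro e e' he he' h
    obtain ⟨t, U, rfl, hU⟩ := exists_mk_of_rk (k := 3) he
    obtain ⟨t', U', rfl, hU'⟩ := exists_mk_of_rk (k := 3) he'
    have h0 := congrArg Set.sUnion h
    rw [sUnion_rep3 M t (by omega), sUnion_rep3 M t' (by omega)] at h0
    have h1 := congrArg Set.sUnion h0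
    rw [sUnion_ES M t (Finset.card_pos.1 (by omega)),
      sUnion_ES M t' (Finset.card_pos.1 (by omega))] at h1
    exact mk_eq_of_coset ((pt_injective M).image_injective h1)

theorem isDiscrete : IsDiscreteSet rk (bb M) := by
  intro x R
  have h1 := (finite_ball M (eH.symm x) (Real.cosh R)).image eH
  refine h1.subset ?_
  rintro y ⟨hy, hxy⟩
  rw [range_bb] at hy
  obtain ⟨r, rfl⟩ := hy
  refine ⟨bt M r, ⟨⟨r, rfl⟩, ?_⟩, rfl⟩
  have h2 := neg_lor_le hxy
  have h3 : QQ (eH.symm x).1 (bt M r).1 = lor x.1 (pt M r).1 := by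
    have h4 := lor_eH (eH.symm x) (bt M r)
    rw [eH.apply_symm_apply] at h4
    exact h4.symm
  rw [h3]
  exact h2

/-- The isometry `g ε r` as a bijection. -/
noncomputable def gE (ε : ℤˣ) (r : N) : Hs ≃ Hs where
  toFun := g M ε r
  invFun := g M (ε * sg r) r⁻¹
  left_inv := g_inv' M ε r
  right_inv := g_inv M ε r

/-- The permutation of the coordinates as a bijection. -/
noncomputable def pE (π : Equiv.Perm (Fin 4)) : Hs ≃ Hs where
  toFun := pH π
  invFun := pH π⁻¹
  left_inv x := by rw [← pH_mul, inv_mul_cancel, pH_one]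
  right_inv x := by rw [← pH_mul, mul_inv_cancel, pH_one]

/-- The symmetries. -/
noncomputable def symm (x : N) (π : Equiv.Perm (Fin 4)) : H3 ≃ H3 :=
  eH.symm.trans (((pE π).trans (gE M 1 x)).trans eH)

theorem symm_eH (x : N) (π : Equiv.Perm (Fin 4)) (y : Hs) :
    symm M x π (eH y) = eH (g M 1 x (pH π y)) := by
  show eH (g M 1 x (pH π (eH.symm (eH y)))) = _
  rw [Equiv.symm_apply_apply]

theorem symm_isIsom (x : N) (π : Equiv.Perm (Fin 4)) : IsIsom (symm M x π) := by
  rw [isIsom_iff]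
  intro y z
  obtain ⟨y, rfl⟩ := eH.surjective y
  obtain ⟨z, rfl⟩ := eH.surjective z
  rw [symm_eH, symm_eH, lor_eH, lor_eH, QQ_g]
  exact QQ_pv π y.1 z.1

theorem symm_ver {x : N} {π : Equiv.Perm (Fin 4)} (h : sg x = Equiv.Perm.sign π)
    (v : {v : PP // rk v = 0}) :
    symm M x π (bb M v) = bb M ⟨aut x π v.1, (rk_aut x π v.1).trans v.2⟩ := by
  obtain ⟨r, rfl⟩ := ver_bijective.surjective v
  have h1 : (⟨aut x π (ver r).1, (rk_aut x π (ver r).1).trans (ver r).2⟩ :
      {v : PP // rk v = 0}) = ver (x * act π r) := by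
    refine Subtype.ext ?_
    show aut x π (mk r ∅ : PP) = (mk (x * act π r) ∅ : PP)
    rw [aut_mk, Finset.map_empty]
  rw [h1, bb_ver, bb_ver]
  unfold pt
  rw [symm_eH, sym_bt M h]

/-- The sign of a flag. -/
noncomputable def fs (r : N) (σ : Equiv.Perm (Fin 4)) : ℤˣ := sg r * Equiv.Perm.sign σ

theorem sameOrbit_of_fs {r t : N} {σ τ : Equiv.Perm (Fin 4)} (h : fs r σ = fs t τ) :
    SameOrbit rk (bb M) (fl r σ) (fl t τ) := by
  have h1 : sg (t * (act (τ * σ⁻¹) r)⁻¹) = Equiv.Perm.sign (τ * σ⁻¹) := by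
    unfold fs at h
    rw [_root_.map_mul, sg_inv, sg_act, _root_.map_mul, Equiv.Perm.sign_inv]
    have h2 : sg t = sg r * Equiv.Perm.sign σ * Equiv.Perm.sign τ := by
      rw [h, mul_assoc, Int.units_mul_self, mul_one]
    rw [h2]
    have h3 := Int.units_mul_self (sg r)
    calc sg r * Equiv.Perm.sign σ * Equiv.Perm.sign τ * sg r =
        (sg r * sg r) * (Equiv.Perm.sign τ * Equiv.Perm.sign σ) := by
          rw [mul_comm (sg r * Equiv.Perm.sign σ * Equiv.Perm.sign τ) (sg r), mul_assoc (sg r),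
            ← mul_assoc (sg r) (sg r), mul_comm (Equiv.Perm.sign σ)]
      _ = _ := by rw [h3, one_mul]
  refine SameOrbit.of_aut (symm_isIsom M _ _) (rk_aut _ _) (symm_ver M h1) fun i => ?_
  rw [aut_fl, inv_mul_cancel_right, inv_mul_cancel_right]

end Pool.Agent.Lib.MP_eed79e_co
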