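import Pool.Agent.Lib.MP_eed79e_co.Real

/-!
Two orbits; chirality; the parameters are invariants of the congruence class.
-/

namespace Pool.Agent.Lib.MP_eed79e_co

theorem c_injective : Function.Injective c := by
  intro i j h
  have h1 : c i ∈ NS {j} := by
    rw [h]
    exact c_mem (Finset.mem_singleton_self j)
  exact Finset.mem_singleton.1 (c_mem_iff.1 h1)

variable {M M' : Par}

theorem walk {T : H3 ≃ H3} {r r' : N} {S S' : Finset (Fin 4)}
    (h : (T '' ·) '' ES M r S = ES M' r' S') {t t' : N} {j : Fin 4} (ht : t ∈ coset r S)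
    (hj : j ∈ S) (hT : T (pt M t) = pt M' t') :
    ∃ j' ∈ S', T (pt M (t * c j)) = pt M' (t' * c j') := by
  have h1 : T '' edge M t j ∈ ES M' r' S' := by
    rw [← h]
    exact ⟨_, edge_mem_ES M ht hj, rfl⟩
  obtain ⟨u, hu, k, hk, hk'⟩ := h1
  have h2 : T '' edge M t j = {pt M' t', T (pt M (t * c j))} := by
    rw [edge, Set.image_pair, hT]
  rw [h2] at hk'
  unfold edge at hk'
  rcases Set.pair_eq_pair_iff.1 hk' with ⟨h3, h4⟩ | ⟨h3, h4⟩
  · exact ⟨k, hk, by rw [← h4, pt_injective M' h3]⟩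
  · refine ⟨k, hk, ?_⟩
    rw [← h3, ← pt_injective M' h4, mul_assoc, c_mul_self, mul_one]

theorem mem_coset_mul {t r : N} {S : Finset (Fin 4)} {i : Fin 4} (ht : t ∈ coset r S)
    (hi : i ∈ S) : t * c i ∈ coset r S := by
  rw [mem_coset] at ht ⊢
  rw [← mul_assoc]
  exact Subgroup.mul_mem _ ht (c_mem hi)

theorem walk_ne {T : H3 ≃ H3} {t t' : N} {i i' j j' : Fin 4} (hij : j ≠ i)
    (h1 : T (pt M (t * c i)) = pt M' (t' * c i')) (h2 : T (pt M (t * c j)) = pt M' (t' * c j')) :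
    j' ≠ i' := by
  rintro rfl
  rw [← h1] at h2
  have h3 := pt_injective M (T.injective h2)
  exact hij (c_injective (mul_left_cancel h3))

theorem QQ_add (x y w : Fin 4 → ℝ) (β : ℝ) :
    QQ x (fun j => y j + β * w j) = QQ x y + β * QQ x w := by
  rw [QQ_eq, QQ_eq, QQ_eq]
  ring

theorem bt_c (i : Fin 4) : (bt M (c i)).1 = fun j => oo j + 2 * M.s * nn M i j := by
  have h1 : bt M (c i) = cH M i 1 oH := g_c M 1 i oH
  rw [h1]
  exact cv_oo M i 1

theorem QQ_bt_c (x : Fin 4 → ℝ) (i : Fin 4) :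
    QQ x (bt M (c i)).1 = -(sm x / 2) + 2 * M.s * ht M i x := by
  rw [bt_c, QQ_add, QQ_nn, QQ_oo]

theorem bt_c_c : (bt M (c 0 * c 1)).1 = cv M 0 1 (fun j => oo j + 2 * M.s * nn M 1 j) := by
  have h1 : bt M (c 0 * c 1) = cH M 0 1 (cH M 1 (-1) oH) := by
    unfold bt
    rw [g_c_mul, g_c]
  rw [h1]
  show cv M 0 1 (cv M 1 (-1) oo) = _
  rw [cv_oo]

theorem diff_ne : QQ (bt M (c 0 * c 1)).1 (bt M (c 2)).1 ≠ QQ (bt M (c 0 * c 1)).1 (bt M (c 3)).1 := by
  intro h
  rw [QQ_bt_c, QQ_bt_c] at h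
  have h1 : ht M 2 (bt M (c 0 * c 1)).1 - ht M 3 (bt M (c 0 * c 1)).1 =
      8 * M.s * M.p ^ 2 * (M.c - M.b) := by
    unfold ht
    rw [bt_c_c]
    set z : Fin 4 → ℝ := fun j => oo j + 2 * M.s * nn M 1 j with hz
    obtain ⟨e1, e2, e3, e4⟩ := rot0 M 1 z
    have f1 : cv M 0 1 z 2 = rot M 0 1 z 2 - 2 * ht M 0 z * nn M 0 2 := rfl
    have f2 : cv M 0 1 z 3 = rot M 0 1 z 3 - 2 * ht M 0 z * nn M 0 3 := rfl
    have n2 : nn M 0 2 = (M.s - M.p) / 2 := by unfold nn; rw [if_neg (by decide)]; ring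
    have n3 : nn M 0 3 = (M.s - M.p) / 2 := by unfold nn; rw [if_neg (by decide)]; ring
    have z1 : z 1 = 1 / 2 + 2 * M.s * ((M.s - M.p) / 2 + 2 * M.p) := by
      rw [hz]
      show oo 1 + 2 * M.s * nn M 1 1 = _
      unfold oo nn
      rw [if_pos rfl]
    have z2 : z 2 = 1 / 2 + 2 * M.s * ((M.s - M.p) / 2) := by
      rw [hz]
      show oo 2 + 2 * M.s * nn M 1 2 = _
      unfold oo nn
      rw [if_neg (by decide)]
      ring
    have z3 : z 3 = 1 / 2 + 2 * M.s * ((M.s - M.p) / 2) := by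
      rw [hz]
      show oo 3 + 2 * M.s * nn M 1 3 = _
      unfold oo nn
      rw [if_neg (by decide)]
      ring
    rw [f1, f2, e3, e4, n2, n3, z1, z2, z3, cf_one, cf_neg_one]
    ring
  have h2 : 2 * M.s * (8 * M.s * M.p ^ 2 * (M.c - M.b)) = 0 := by
    rw [← h1]
    linarith
  have h3 := M.hs
  have h4 := M.hp
  have h5 : M.c - M.b = 0 := by
    have h6 : 2 * M.s * (8 * M.s * M.p ^ 2) ≠ 0 := by positivity
    have h7 : 2 * M.s * (8 * M.s * M.p ^ 2) * (M.c - M.b) = 0 := by linarith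
    exact (mul_eq_zero.1 h7).resolve_left h6
  exact M.hbc (by linarith)

theorem lor_pt (r t : N) : lor (pt M r).1 (pt M t).1 = QQ (bt M r).1 (bt M t).1 := lor_eH _ _

/-- The other flag. -/
noncomputable def flm : Flag4 rk := fl 1 (Equiv.swap 2 3)

theorem J_maps : (J 0).map (1 : Equiv.Perm (Fin 4)).toEmbedding = ∅ ∧
    (J 1).map (1 : Equiv.Perm (Fin 4)).toEmbedding = {0} ∧
    (J 2).map (1 : Equiv.Perm (Fin 4)).toEmbedding = {0, 1} ∧
    (J 3).map (1 : Equiv.Perm (Fin 4)).toEmbedding = {0, 1, 2} ∧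
    (J 0).map (Equiv.swap 2 3 : Equiv.Perm (Fin 4)).toEmbedding = ∅ ∧
    (J 1).map (Equiv.swap 2 3 : Equiv.Perm (Fin 4)).toEmbedding = {0} ∧
    (J 2).map (Equiv.swap 2 3 : Equiv.Perm (Fin 4)).toEmbedding = {0, 1} ∧
    (J 3).map (Equiv.swap 2 3 : Equiv.Perm (Fin 4)).toEmbedding = {0, 1, 3} := by
  decide

theorem not_same : ¬ SameOrbit rk (bb M) (fl 1 1) flm := by
  obtain ⟨J0, J1, J2, J3, K0, K1, K2, K3⟩ := J_maps
  rintro ⟨T, hT, h0, h1, h2, h3⟩
  have e0 : (⟨(fl 1 1).face 0, (fl 1 1).rank 0⟩ : {v : PP // rk v = 0}) = ver 1 := by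
    refine Subtype.ext ?_
    show ((fl 1 1).face 0 : PP) = (mk 1 ∅ : PP)
    rw [fl_face, J0]
  have e0' : (⟨flm.face 0, flm.rank 0⟩ : {v : PP // rk v = 0}) = ver 1 := by
    refine Subtype.ext ?_
    show (flm.face 0 : PP) = (mk 1 ∅ : PP)
    unfold flm
    rw [fl_face, K0]
  rw [e0, e0', bb_ver] at h0
  have e1 : flm.face 1 = (mk 1 {0} : PP) := by unfold flm; rw [fl_face, K1]
  have e2 : flm.face 2 = (mk 1 {0, 1} : PP) := by unfold flm; rw [fl_face, K2]
  have e3 : flm.face 3 = (mk 1 {0, 1, 3} : PP) := by unfold flm; rw [fl_face, K3]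
  rw [e1, fl_face, J1, rep1_edge] at h1
  rw [e2, fl_face, J2, rep2_mk] at h2
  rw [e3, fl_face, J3] at h3
  have h3' : (T '' ·) '' ES M 1 {0, 1, 2} = ES M 1 {0, 1, 3} := by
    rw [← sUnion_rep3 M 1 (by decide), ← sUnion_rep3 M 1 (by decide), ← h3]
    ext y
    constructor
    · rintro ⟨x, ⟨s, hs, hx⟩, rfl⟩
      exact ⟨(T '' ·) '' s, ⟨s, hs, rfl⟩, ⟨x, hx, rfl⟩⟩
    · rintro ⟨_, ⟨s, hs, rfl⟩, ⟨x, hx, rfl⟩⟩
      exact ⟨x, ⟨s, hs, hx⟩, rfl⟩
  have m1 : (1 : N) ∈ coset 1 {0, 1} := self_mem_coset _ _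
  have m1' : (1 : N) ∈ coset 1 {0, 1, 2} := self_mem_coset _ _
  -- `T` fixes the end of the edge
  have w0 : T (pt M (1 * c 0)) = pt M (1 * c 0) := by
    have h4 : T (pt M (1 * c 0)) ∈ edge M 1 0 := by
      rw [← h1]
      exact ⟨_, Or.inr rfl, rfl⟩
    rcases h4 with h4 | h4
    · exfalso
      rw [← h0] at h4
      have h5 := pt_injective M (T.injective h4)
      rw [one_mul] at h5
      exact c_ne_one 0 h5
    · exact h4
  have w1 : T (pt M (1 * c 1)) = pt M (1 * c 1) := by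
    obtain ⟨k, hk, hk'⟩ := walk h2 m1 (j := 1) (by decide) h0
    have h5 := walk_ne (by decide) w0 hk'
    have h6 : k = 1 :=
      (by decide : ∀ k ∈ ({0, 1} : Finset (Fin 4)), k ≠ 0 → k = 1) k hk h5
    rw [h6] at hk'
    exact hk'
  have w01 : T (pt M (1 * c 0 * c 1)) = pt M (1 * c 0 * c 1) := by
    obtain ⟨k, hk, hk'⟩ := walk h2 (mem_coset_mul m1 (i := 0) (by decide)) (j := 1) (by decide) w0
    have w00 : T (pt M (1 * c 0 * c 0)) = pt M (1 * c 0 * c 0) := by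
      rw [mul_assoc, c_mul_self, mul_one]
      exact h0
    have h5 := walk_ne (by decide) w00 hk'
    have h6 : k = 1 :=
      (by decide : ∀ k ∈ ({0, 1} : Finset (Fin 4)), k ≠ 0 → k = 1) k hk h5
    rw [h6] at hk'
    exact hk'
  have w2 : T (pt M (1 * c 2)) = pt M (1 * c 3) := by
    obtain ⟨k, hk, hk'⟩ := walk h3' m1' (j := 2) (by decide) h0
    have h5 := walk_ne (by decide) w0 hk'
    have h6 := walk_ne (by decide) w1 hk'
    have h7 : k = 3 :=
      (by decide : ∀ k ∈ ({0, 1, 3} : Finset (Fin 4)), k ≠ 0 → k ≠ 1 → k = 3) k hk h5 h6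
    rw [h7] at hk'
    exact hk'
  have h8 := (isIsom_iff T).1 hT.isom (pt M (1 * c 0 * c 1)) (pt M (1 * c 2))
  rw [w01, w2, lor_pt, lor_pt, one_mul, one_mul, one_mul] at h8
  exact diff_ne h8.symm

theorem fs_one : fs 1 1 = 1 := by
  unfold fs
  rw [map_one, map_one, mul_one]

theorem fs_swap : fs 1 (Equiv.swap 2 3) = -1 := by
  unfold fs
  rw [map_one, one_mul]
  decide

theorem fs_eq_of_sameOrbit {r t : N} {σ τ : Equiv.Perm (Fin 4)}
    (h : SameOrbit rk (bb M) (fl r σ) (fl t τ)) : fs r σ = fs t τ := by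
  by_contra hne
  rcases Int.units_eq_one_or (fs r σ) with h1 | h1
  · rcases Int.units_eq_one_or (fs t τ) with h2 | h2
    · exact hne (h1.trans h2.symm)
    · have h3 : SameOrbit rk (bb M) (fl 1 1) (fl r σ) := sameOrbit_of_fs M (fs_one.trans h1.symm)
      have h4 : SameOrbit rk (bb M) (fl t τ) flm := sameOrbit_of_fs M (h2.trans fs_swap.symm)
      exact not_same ((h3.trans h).trans h4)
  · rcases Int.units_eq_one_or (fs t τ) with h2 | h2
    · have h3 : SameOrbit rk (bb M) (fl 1 1) (fl t τ) := sameOrbit_of_fs M (fs_one.trans h2.symm)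
      have h4 : SameOrbit rk (bb M) (fl r σ) flm := sameOrbit_of_fs M (h1.trans fs_swap.symm)
      exact not_same ((h3.trans h.symm).trans h4)
    · exact hne (h1.trans h2.symm)

theorem isTwoOrbit : IsTwoOrbit rk (bb M) := by
  refine ⟨fl 1 1, flm, not_same, fun Θ => ?_⟩
  obtain ⟨r, σ, rfl⟩ := exists_fl Θ
  rcases Int.units_eq_one_or (fs r σ) with h1 | h1
  · exact Or.inl (sameOrbit_of_fs M (fs_one.trans h1.symm))
  · exact Or.inr (sameOrbit_of_fs M (fs_swap.trans h1.symm))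

theorem perm_one : ∀ π : Equiv.Perm (Fin 4), (∀ j, (J j).map π.toEmbedding = J j) → π = 1 := by
  decide

theorem perm_sign : ∀ (i : Fin 4) (π : Equiv.Perm (Fin 4)),
    (∀ j, j ≠ i → (J j).map π.toEmbedding = J j) → (J i).map π.toEmbedding ≠ J i →
      Equiv.Perm.sign π = -1 := by
  decide

theorem map_inv_mul {σ τ : Equiv.Perm (Fin 4)} {S : Finset (Fin 4)} :
    S.map (σ⁻¹ * τ).toEmbedding = S ↔ S.map σ.toEmbedding = S.map τ.toEmbedding := by
  constructor
  · intro h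
    rw [← h, map_mul, mul_inv_cancel_left, h]
  · intro h
    rw [← map_mul, ← h, map_inv_map]

theorem isChiral : IsChiral rk (bb M) := by
  rintro Φ Ψ ⟨i, hi, hj⟩ hs
  obtain ⟨r, σ, rfl⟩ := exists_fl Φ
  obtain ⟨t, τ, rfl⟩ := exists_fl Ψ
  have h1 := fs_eq_of_sameOrbit hs
  have key : ∀ j, j ≠ i → (J j).map σ.toEmbedding = (J j).map τ.toEmbedding ∧
      t⁻¹ * r ∈ NS ((J j).map τ.toEmbedding) := by
    intro j hji
    have h2 := hj j hji
    rw [fl_face, fl_face, WithBot.coe_inj, mk_eq_mk] at h2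
    exact h2
  have hmap : ∀ j, j ≠ i → (J j).map (σ⁻¹ * τ).toEmbedding = J j := fun j hji =>
    map_inv_mul.2 (key j hji).1
  by_cases h0 : i = 0
  · subst h0
    have h2 : σ⁻¹ * τ = 1 := by
      refine perm_one _ fun j => ?_
      by_cases hj0 : j = 0
      · subst hj0
        rfl
      · exact hmap j hj0
    have h3 : σ = τ := inv_mul_eq_one.1 h2
    subst h3
    have h4 := (key 1 (by decide)).2
    have h5 : (J 1).map σ.toEmbedding = {σ 0} := by
      have : J 1 = {0} := by decide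
      rw [this, Finset.map_singleton]
      rfl
    rw [h5, mem_NS_singleton] at h4
    rcases h4 with h4 | h4
    · apply hi
      rw [← inv_mul_eq_one.1 h4]
    · have h6 : r = t * c (σ 0) := by rw [← h4, mul_inv_cancel_left]
      unfold fs at h1
      rw [h6, _root_.map_mul, sg_c] at h1
      have h7 : (-1 : ℤˣ) = 1 := by
        have h8 := mul_right_cancel h1
        have h9 : sg t * -1 = sg t * 1 := by rw [h8, mul_one]
        exact mul_left_cancel h9
      exact absurd h7 (by decide)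
  · have h2 := (key 0 (fun h => h0 h.symm)).2
    have h3 : (J 0).map τ.toEmbedding = ∅ := by
      have : J 0 = ∅ := by decide
      rw [this, Finset.map_empty]
    rw [h3, NS_empty, Subgroup.mem_bot, inv_mul_eq_one] at h2
    subst h2
    have h4 : (J i).map (σ⁻¹ * τ).toEmbedding ≠ J i := by
      intro h5
      apply hi
      rw [fl_face, fl_face, map_inv_mul.1 h5]
    have h5 := perm_sign i _ hmap h4
    unfold fs at h1
    have h6 := mul_left_cancel h1
    rw [_root_.map_mul, Equiv.Perm.sign_inv, h6, Int.units_mul_self] at h5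
    exact absurd h5 (by decide)

/-- The distance along three edges of a 2-face. -/
noncomputable def D3 (s p a : ℝ) : ℝ :=
  -(((2 + 4 * s * s) - 4 * s * (-s - 2 * s * (p ^ 2 + s ^ 2)) - 4 * s * (2 * p * (1 / 2 +
    s * (s - p) + 4 * s * p * a) - (s + p) / 2 * (2 + 4 * s * s) +
      2 * (-s - 2 * s * (p ^ 2 + s ^ 2)) * (p ^ 2 + s ^ 2))) / 2)

theorem D3_inj {s p a a' : ℝ} (hs : 0 < s) (hp : 0 < p) (h : D3 s p a = D3 s p a') : a = a' := by
  unfold D3 at h
  have h1 : (16 * s ^ 2 * p ^ 2) * (a - a') = 0 := by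
    linear_combination h
  have h2 : 16 * s ^ 2 * p ^ 2 ≠ 0 := by positivity
  have h3 := (mul_eq_zero.1 h1).resolve_left h2
  linarith

theorem QQ_bt (u t : N) : QQ (bt M u).1 (bt M (u * t)).1 = QQ (g M (sg u) t oH).1 oo := by
  rw [bt_mul, bt, QQ_g, QQ_comm]
  rfl

theorem dist1 (ε : ℤˣ) (i : Fin 4) : QQ (g M ε (c i) oH).1 oo = -(1 + 2 * M.s ^ 2) := by
  rw [g_c]
  show QQ (cv M i ε oo) oo = _
  rw [QQ_oo, sm_cv, sm_oo, ht_oo]
  ring

theorem dist3 (ε : ℤˣ) {i j : Fin 4} (h : i ≠ j) :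
    QQ (g M ε (c i * (c j * c i)) oH).1 oo = D3 M.s M.p M.a := by
  rw [g_c_mul, g_c_mul, g_c, neg_neg]
  show QQ (cv M i ε (cv M j (-ε) (cv M i ε oo))) oo = _
  rw [cv_oo, QQ_oo, sm_cv, sm_cv]
  set z : Fin 4 → ℝ := fun j => oo j + 2 * M.s * nn M i j with hz
  have sz : sm z = 2 + 4 * M.s * M.s := by
    have h1 : sm z = sm oo + 2 * M.s * sm (nn M i) := by
      rw [sm_eq, sm_eq, sm_eq, hz]
      ring
    rw [h1, sm_oo, sm_nn]
    ring
  have hjz : ht M j z = -M.s - 2 * M.s * (M.p ^ 2 + M.s ^ 2) := by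
    have h1 : ht M j z = ht M j oo + 2 * M.s * ht M j (nn M i) := by
      unfold ht
      have h2 : sm z = sm oo + 2 * M.s * sm (nn M i) := by
        rw [sm_eq, sm_eq, sm_eq, hz]
        ring
      rw [h2, hz]
      ring
    rw [h1, ht_oo, ht_nn' M h.symm]
    ring
  have hiz : ht M i (cv M j (-ε) z) = 2 * M.p * (1 / 2 + M.s * (M.s - M.p) +
      4 * M.s * M.p * M.a) - (M.s + M.p) / 2 * (2 + 4 * M.s * M.s) +
      2 * (-M.s - 2 * M.s * (M.p ^ 2 + M.s ^ 2)) * (M.p ^ 2 + M.s ^ 2) := by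
    unfold cv
    rw [ht_sub, ht_nn' M h, hjz]
    obtain ⟨n1, n2, n3, n4, n5, n6⟩ := nx_ne j i h
    obtain ⟨c1, _, _⟩ := cf_rel M (-ε)
    have h1 : rot M j (-ε) z i = 1 / 2 + M.s * (M.s - M.p) + 4 * M.s * M.p * M.a := by
      rw [rot_ne M h]
      have z1 : z i = 1 / 2 + 2 * M.s * ((M.s - M.p) / 2 + 2 * M.p) := by
        rw [hz]
        show oo i + 2 * M.s * nn M i i = _
        unfold oo nn
        rw [if_pos rfl]
      have z2 : z (nx j i) = 1 / 2 + 2 * M.s * ((M.s - M.p) / 2) := by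
        rw [hz]
        show oo (nx j i) + 2 * M.s * nn M i (nx j i) = _
        unfold oo nn
        rw [if_neg n2]
        ring
      have z3 : z (nx j (nx j i)) = 1 / 2 + 2 * M.s * ((M.s - M.p) / 2) := by
        rw [hz]
        show oo (nx j (nx j i)) + 2 * M.s * nn M i (nx j (nx j i)) = _
        unfold oo nn
        rw [if_neg n4]
        ring
      rw [z1, z2, z3]
      linear_combination (1 / 2 + 2 * M.s * ((M.s - M.p) / 2)) * c1
    have h2 : ht M i (rot M j (-ε) z) = 2 * M.p * rot M j (-ε) z i -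
        (M.s + M.p) / 2 * sm (rot M j (-ε) z) := rfl
    rw [h2, h1, sm_rot, sz]
    ring
  rw [hiz, hjz, sz]
  unfold D3
  ring

theorem params_eq {T : H3 ≃ H3} (h : Maps rk T (bb M) (bb M')) : M.s = M'.s ∧ M.a = M'.a := by
  have h1 : (T '' ·) '' rep2 rk (bb M) (mk 1 {0, 1} : PP) ∈
      {s | ∃ f : PP, rk f = 2 ∧ rep2 rk (bb M') f = s} := by
    rw [← h.twofaces]
    exact ⟨_, ⟨_, rfl, rfl⟩, rfl⟩
  obtain ⟨f, hf, hf'⟩ := h1
  obtain ⟨r', S', rfl, hS'⟩ := exists_mk_of_rk (k := 2) hf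
  rw [rep2_mk, rep2_mk] at hf'
  have hES := hf'.symm
  have h0 : T (pt M 1) ∈ Set.range (pt M') := by
    rw [← range_bb, ← h.vertices, range_bb]
    exact ⟨_, ⟨1, rfl⟩, rfl⟩
  obtain ⟨u, hu⟩ := h0
  have hu' : T (pt M 1) = pt M' u := hu.symm
  have m1 : (1 : N) ∈ coset 1 {0, 1} := self_mem_coset _ _
  have m2 := mem_coset_mul m1 (i := 0) (by decide)
  have m3 := mem_coset_mul m2 (i := 1) (by decide)
  obtain ⟨k1, hk1, w1⟩ := walk hES m1 (j := 0) (by decide) hu'
  obtain ⟨k2, hk2, w2⟩ := walk hES m2 (j := 1) (by decide) w1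
  obtain ⟨k3, hk3, w3⟩ := walk hES m3 (j := 0) (by decide) w2
  have n2 : k2 ≠ k1 := by
    have w00 : T (pt M (1 * c 0 * c 0)) = pt M' (u * c k1 * c k1) := by
      rw [mul_assoc, c_mul_self, mul_one, mul_assoc, c_mul_self, mul_one]
      exact hu'
    exact walk_ne (by decide) w00 w2
  have n3 : k3 ≠ k2 := by
    have w00 : T (pt M (1 * c 0 * c 1 * c 1)) = pt M' (u * c k1 * c k2 * c k2) := by
      rw [mul_assoc (1 * c 0), c_mul_self, mul_one, mul_assoc (u * c k1), c_mul_self, mul_one]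
      exact w1
    exact walk_ne (by decide) w00 w3
  have n4 : k3 = k1 := by
    by_contra hne
    have h5 : ({k1, k2, k3} : Finset (Fin 4)) ⊆ S' := by
      intro x hx
      rw [Finset.mem_insert, Finset.mem_insert, Finset.mem_singleton] at hx
      rcases hx with rfl | rfl | rfl
      · exact hk1
      · exact hk2
      · exact hk3
    have h6 := Finset.card_le_card h5
    have h7 : ({k1, k2, k3} : Finset (Fin 4)).card = 3 := by
      rw [Finset.card_insert_of_notMem, Finset.card_pair n3.symm]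
      rw [Finset.mem_insert, Finset.mem_singleton, not_or]
      exact ⟨n2.symm, fun h => hne h.symm⟩
    omega
  subst n4
  have hiso := (isIsom_iff T).1 h.isom
  have d1 := hiso (pt M 1) (pt M (1 * c 0))
  rw [hu', w1, lor_pt, lor_pt, QQ_bt, QQ_bt, dist1, dist1] at d1
  have d3 := hiso (pt M 1) (pt M (1 * c 0 * c 1 * c 0))
  have a1 : (1 : N) * c 0 * c 1 * c 0 = 1 * (c 0 * (c 1 * c 0)) := by group
  have a2 : u * c k3 * c k2 * c k3 = u * (c k3 * (c k2 * c k3)) := by group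
  rw [hu', w3, a1, a2, lor_pt, lor_pt, QQ_bt, QQ_bt, dist3 _ n2.symm, dist3 _ (by decide)] at d3
  have hs : M.s = M'.s := by
    have h8 := M.hs
    have h9 := M'.hs
    nlinarith
  have hp : M.p = M'.p := by
    have h8 := M.hp
    have h9 := M'.hp
    have h10 := M.hsp
    have h11 := M'.hsp
    rw [hs] at h10
    nlinarith
  refine ⟨hs, ?_⟩
  rw [← hs, ← hp] at d3
  exact (D3_inj M.hs M.hp d3).symm

end Pool.Agent.Lib.MP_eed79e_co
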